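import Pool.Agent.Lib.MP_9f0ab0_gt.Facets

/-!
# Truncated double cones over cubes
-/

open MeasureTheory Metric
open scoped RealInnerProductSpace ENNReal

namespace Pool.Agent.Lib.MP_9f0ab0_gt

variable {n : ℕ}

/-- The double cone over a cube with apices `± b e_0`, truncated at `|x_0| ≤ c`. -/
def body (n : ℕ) (a b c : ℝ) : Set (E (n + 1)) :=
  {x | (∀ i : Fin n, |x i.succ| / a + |x 0| / b ≤ 1) ∧ |x 0| ≤ c}

/-- The half spaces defining the body. -/
noncomputable def bodyS (n : ℕ) (a b c : ℝ) : Finset (E (n + 1) × ℝ) :=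
  open Classical in
  (Finset.univ : Finset (Fin n × Bool × Bool)).image (fun p =>
    (((if p.2.1 then 1 else -1) / a) • EuclideanSpace.single p.1.succ (1 : ℝ) +
      ((if p.2.2 then 1 else -1) / b) • EuclideanSpace.single 0 (1 : ℝ), 1)) ∪
  {(EuclideanSpace.single 0 (1 : ℝ), c), (-EuclideanSpace.single 0 (1 : ℝ), c)}

theorem bodyS_card (n : ℕ) (a b c : ℝ) : (bodyS n a b c).card ≤ 4 * n + 2 := by
  classical
  unfold bodyS
  refine (Finset.card_union_le _ _).trans (add_le_add ?_ Finset.card_le_two)
  refine Finset.card_image_le.trans ?_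
  simp [Fintype.card_prod]
  omega

theorem inner_single (i : Fin (n + 1)) (x : E (n + 1)) :
    ⟪EuclideanSpace.single i (1 : ℝ), x⟫ = x i := by
  rw [EuclideanSpace.inner_single_left]
  simp

theorem body_eq_Inter (n : ℕ) {a b c : ℝ} (ha : 0 < a) (hb : 0 < b) :
    body n a b c = Inter (bodyS n a b c) := by
  classical
  ext x
  simp only [body, Inter, bodyS, Set.mem_ofPred_eq, Finset.mem_union, Finset.mem_image,
    Finset.mem_univ, true_and, Finset.mem_insert, Finset.mem_singleton]
  constructor
  · rintro ⟨h1, h2⟩ p hp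
    rcases hp with ⟨⟨i, σ, τ⟩, rfl⟩ | rfl | rfl
    · simp only [inner_add_left, inner_smul_left, inner_single, RCLike.conj_to_real]
      have h := h1 i
      have e1 : (if σ then 1 else -1) / a * x i.succ ≤ |x i.succ| / a := by
        rw [div_mul_eq_mul_div]
        apply div_le_div_of_nonneg_right _ ha.le
        cases σ
        · simp only [Bool.false_eq_true, if_false, neg_mul, one_mul]; exact neg_le_abs _
        · simp only [if_true, one_mul]; exact le_abs_self _
      have e2 : (if τ then 1 else -1) / b * x 0 ≤ |x 0| / b := by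
        rw [div_mul_eq_mul_div]
        apply div_le_div_of_nonneg_right _ hb.le
        cases τ
        · simp only [Bool.false_eq_true, if_false, neg_mul, one_mul]; exact neg_le_abs _
        · simp only [if_true, one_mul]; exact le_abs_self _
      linarith
    · simp only [inner_single]
      exact (le_abs_self _).trans h2
    · simp only [inner_neg_left, inner_single]
      exact (neg_le_abs _).trans h2
  · intro h
    refine ⟨fun i => ?_, ?_⟩
    · have h' : ∀ σ τ : Bool, (if σ then 1 else -1) / a * x i.succ +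
          (if τ then 1 else -1) / b * x 0 ≤ 1 := by
        intro σ τ
        have := h _ (Or.inl ⟨(i, σ, τ), rfl⟩)
        simpa only [inner_add_left, inner_smul_left, inner_single, RCLike.conj_to_real] using this
      have h1 := h' true true
      have h2 := h' true false
      have h3 := h' false true
      have h4 := h' false false
      simp only [if_true, Bool.false_eq_true, if_false] at h1 h2 h3 h4
      rcases abs_cases (x i.succ) with ⟨e1, -⟩ | ⟨e1, -⟩ <;>
        rcases abs_cases (x 0) with ⟨e2, -⟩ | ⟨e2, -⟩ <;> rw [e1, e2]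
      · calc x i.succ / a + x 0 / b = 1 / a * x i.succ + 1 / b * x 0 := by ring
          _ ≤ 1 := h1
      · calc x i.succ / a + -x 0 / b = 1 / a * x i.succ + -1 / b * x 0 := by ring
          _ ≤ 1 := h2
      · calc -x i.succ / a + x 0 / b = -1 / a * x i.succ + 1 / b * x 0 := by ring
          _ ≤ 1 := h3
      · calc -x i.succ / a + -x 0 / b = -1 / a * x i.succ + -1 / b * x 0 := by ring
          _ ≤ 1 := h4
    · have h1 := h _ (Or.inr (Or.inl rfl))
      have h2 := h _ (Or.inr (Or.inr rfl))
      simp only [inner_neg_left, inner_single] at h1 h2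
      exact abs_le.2 ⟨by linarith, h1⟩

theorem abs_apply_le_norm (x : E (n + 1)) (i : Fin (n + 1)) : |x i| ≤ ‖x‖ := by
  have := PiLp.norm_apply_le x i
  rwa [Real.norm_eq_abs] at this

theorem body_abs_le {a b c : ℝ} (ha : 0 < a) (hb : 0 < b) {x : E (n + 1)}
    (hx : x ∈ body n a b c) (i : Fin n) : |x i.succ| ≤ a := by
  have h := hx.1 i
  have h1 : 0 ≤ |x 0| / b := by positivity
  have h2 : |x i.succ| / a ≤ 1 := by linarith
  rwa [div_le_one ha] at h2

theorem body_bounded {a b c : ℝ} (ha : 0 < a) (hb : 0 < b) :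
    Bornology.IsBounded (body n a b c) := by
  rw [isBounded_iff_forall_norm_le]
  refine ⟨Real.sqrt ((n + 1) * (max a c) ^ 2), fun x hx => ?_⟩
  rw [EuclideanSpace.norm_eq]
  apply Real.sqrt_le_sqrt
  have h : ∀ i, ‖x i‖ ^ 2 ≤ (max a c) ^ 2 := by
    intro i
    rw [Real.norm_eq_abs]
    refine pow_le_pow_left₀ (abs_nonneg _) ?_ 2
    refine Fin.cases ?_ (fun j => ?_) i
    · exact hx.2.trans (le_max_right _ _)
    · exact (body_abs_le ha hb hx j).trans (le_max_left _ _)
  calc ∑ i, ‖x i‖ ^ 2 ≤ ∑ _i : Fin (n + 1), (max a c) ^ 2 := Finset.sum_le_sum fun i _ => h i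
    _ = (n + 1) * (max a c) ^ 2 := by simp

theorem body_isCompact {a b c : ℝ} (ha : 0 < a) (hb : 0 < b) : IsCompact (body n a b c) := by
  refine Metric.isCompact_of_isClosed_isBounded ?_ (body_bounded ha hb)
  rw [body_eq_Inter n ha hb]
  exact Inter_closed _

theorem closedBall_subset_body {a b c r : ℝ} (ha : 0 < a) (hb : 0 < b)
    (h1 : r / a + r / b ≤ 1) (h2 : r ≤ c) : closedBall (0 : E (n + 1)) r ⊆ body n a b c := by
  intro x hx
  rw [mem_closedBall, dist_zero_right] at hx
  have h : ∀ i, |x i| ≤ r := fun i => (abs_apply_le_norm x i).trans hx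
  refine ⟨fun i => ?_, (h 0).trans h2⟩
  have e1 : |x i.succ| / a ≤ r / a := div_le_div_of_nonneg_right (h _) ha.le
  have e2 : |x 0| / b ≤ r / b := div_le_div_of_nonneg_right (h _) hb.le
  linarith

theorem body_interior {a b c : ℝ} (ha : 0 < a) (hb : 0 < b) (hc : 0 < c) :
    (interior (body n a b c)).Nonempty := by
  set r := min c (1 / (1 / a + 1 / b)) with hr
  have hab : 0 < 1 / a + 1 / b := by positivity
  have hr0 : 0 < r := lt_min hc (by positivity)
  refine ⟨0, ?_⟩
  rw [mem_interior]
  refine ⟨ball 0 r, ball_subset_closedBall.trans (closedBall_subset_body ha hb ?_ ?_),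
    isOpen_ball, mem_ball_self hr0⟩
  · have h : r ≤ 1 / (1 / a + 1 / b) := min_le_right _ _
    rw [le_div_iff₀ hab] at h
    calc r / a + r / b = r * (1 / a + 1 / b) := by ring
      _ ≤ 1 := h
  · exact min_le_left _ _

theorem body_isPolytope {a b c : ℝ} (ha : 0 < a) (hb : 0 < b) (hc : 0 < c) :
    IsPolytope (body n a b c) where
  isCompact := body_isCompact ha hb
  interior_nonempty := body_interior ha hb hc
  polyhedron := ⟨bodyS n a b c, body_eq_Inter n ha hb⟩

theorem body_facets {a b c : ℝ} (ha : 0 < a) (hb : 0 < b) (hc : 0 < c) :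
    AtMostFacets (body n a b c) (4 * n + 2) := by
  have h := atMostFacets_Inter (bodyS n a b c)
    (by rw [← body_eq_Inter n ha hb]; exact body_interior ha hb hc)
  rw [← body_eq_Inter n ha hb] at h
  unfold AtMostFacets at h ⊢
  refine h.trans ?_
  exact_mod_cast bodyS_card n a b c

theorem body_neg (a b c : ℝ) : -(body n a b c) = body n a b c := by
  ext x
  simp [body]

theorem body_convex {a b c : ℝ} (ha : 0 < a) (hb : 0 < b) : Convex ℝ (body n a b c) := by
  rw [body_eq_Inter n ha hb]
  exact Inter_convex _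

theorem body_measurable {a b c : ℝ} (ha : 0 < a) (hb : 0 < b) :
    MeasurableSet (body n a b c) := (body_isCompact ha hb).measurableSet

end Pool.Agent.Lib.MP_9f0ab0_gt
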