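import Pool.Agent.Lib.MP_9f0ab0_gt.Moments

/-!
# Volumes of the caps near the apices
-/

open MeasureTheory Metric
open scoped RealInnerProductSpace ENNReal

namespace Pool.Agent.Lib.MP_9f0ab0_gt

variable {n : ℕ}

/-- The cap near the upper apex. -/
def capP (n : ℕ) (a b s : ℝ) : Set (E (n + 1)) := {x | x ∈ body n a b b ∧ s * b ≤ x 0}

/-- The cap near the lower apex. -/
def capN (n : ℕ) (a b s : ℝ) : Set (E (n + 1)) := {x | x ∈ body n a b b ∧ s * b ≤ -x 0}

theorem flip_capP (a b s : ℝ) : flip (0 : Fin (n + 1)) ⁻¹' (capP n a b s) = capN n a b s := by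
  ext x
  have h : flip (0 : Fin (n + 1)) x ∈ body n a b b ↔ x ∈ body n a b b := by
    have := flip_preimage (0 : Fin (n + 1)) a b b
    rw [Set.ext_iff] at this
    exact this x
  simp only [capP, capN, Set.mem_preimage, Set.mem_ofPred_eq, flip_same, h]

theorem coord_continuous {d : ℕ} (i : Fin d) : Continuous fun x : E d => x i := by fun_prop

theorem capP_isCompact {a b : ℝ} (s : ℝ) (ha : 0 < a) (hb : 0 < b) :
    IsCompact (capP n a b s) := by
  have : capP n a b s = body n a b b ∩ {x | s * b ≤ x 0} := rfl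
  rw [this]
  exact (body_isCompact ha hb).inter_right (isClosed_le continuous_const (coord_continuous 0))

theorem capN_isCompact {a b : ℝ} (s : ℝ) (ha : 0 < a) (hb : 0 < b) :
    IsCompact (capN n a b s) := by
  have : capN n a b s = body n a b b ∩ {x | s * b ≤ - x 0} := rfl
  rw [this]
  exact (body_isCompact ha hb).inter_right
    (isClosed_le continuous_const (coord_continuous 0).neg)

theorem capP_convex {a b : ℝ} (s : ℝ) (ha : 0 < a) (hb : 0 < b) : Convex ℝ (capP n a b s) := by
  intro x hx y hy u v hu hv huv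
  refine ⟨body_convex ha hb hx.1 hy.1 hu hv huv, ?_⟩
  have h : (u • x + v • y) 0 = u * x 0 + v * y 0 := by simp
  rw [h]
  have h1 := mul_le_mul_of_nonneg_left hx.2 hu
  have h2 := mul_le_mul_of_nonneg_left hy.2 hv
  calc s * b = (u + v) * (s * b) := by rw [huv, one_mul]
    _ ≤ u * x 0 + v * y 0 := by linarith

theorem capN_convex {a b : ℝ} (s : ℝ) (ha : 0 < a) (hb : 0 < b) : Convex ℝ (capN n a b s) := by
  intro x hx y hy u v hu hv huv
  refine ⟨body_convex ha hb hx.1 hy.1 hu hv huv, ?_⟩
  have h : (u • x + v • y) 0 = u * x 0 + v * y 0 := by simp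
  rw [h]
  have h1 := mul_le_mul_of_nonneg_left hx.2 hu
  have h2 := mul_le_mul_of_nonneg_left hy.2 hv
  calc s * b = (u + v) * (s * b) := by rw [huv, one_mul]
    _ ≤ -(u * x 0 + v * y 0) := by linarith

theorem capP_subset {a b s : ℝ} (ha : 0 < a) (hb : 0 < b) (hs1 : s < 1) :
    capP n a b s ⊆
      AffineMap.homothety (EuclideanSpace.single 0 b : E (n + 1)) (1 - s) '' body n a b b := by
  intro x hx
  have h1s : 0 < 1 - s := by linarith
  set y : E (n + 1) := EuclideanSpace.single 0 b + (1 - s)⁻¹ • (x - EuclideanSpace.single 0 b)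
    with hy
  have hy0 : y 0 = b + (x 0 - b) / (1 - s) := by
    simp [hy]
    ring
  have hyi : ∀ i : Fin n, y i.succ = x i.succ / (1 - s) := by
    intro i
    simp [hy]
    ring
  have hx0b : x 0 ≤ b := (le_abs_self _).trans hx.1.2
  have hy0nn : 0 ≤ y 0 := by
    rw [hy0]
    have : (s * b - b) / (1 - s) ≤ (x 0 - b) / (1 - s) :=
      div_le_div_of_nonneg_right (by linarith [hx.2]) h1s.le
    have h2 : (s * b - b) / (1 - s) = -b := by
      field_simp
      ring
    linarith
  have hy0b : y 0 ≤ b := by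
    rw [hy0]
    have : (x 0 - b) / (1 - s) ≤ 0 := div_nonpos_of_nonpos_of_nonneg (by linarith) h1s.le
    linarith
  refine ⟨y, ⟨fun i => ?_, ?_⟩, ?_⟩
  · rw [abs_of_nonneg hy0nn, hyi, abs_div, abs_of_pos h1s, hy0]
    have h := hx.1.1 i
    have h' : |x i.succ| / a + x 0 / b ≤ 1 :=
      le_trans (by gcongr; exact le_abs_self _) h
    have e : |x i.succ| / (1 - s) / a + (b + (x 0 - b) / (1 - s)) / b =
        1 + (|x i.succ| / a + x 0 / b - 1) / (1 - s) := by
      field_simp
      ring
    rw [e]
    have : (|x i.succ| / a + x 0 / b - 1) / (1 - s) ≤ 0 :=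
      div_nonpos_of_nonpos_of_nonneg (by linarith) h1s.le
    linarith
  · rw [abs_of_nonneg hy0nn]; exact hy0b
  · rw [AffineMap.homothety_apply]
    simp only [vsub_eq_sub, vadd_eq_add, hy, add_sub_cancel_left, smul_smul]
    rw [mul_inv_cancel₀ h1s.ne', one_smul, sub_add_cancel]

theorem volume_capP_le {a b s : ℝ} (ha : 0 < a) (hb : 0 < b) (hs1 : s < 1) :
    volume (capP n a b s) ≤ ENNReal.ofReal ((1 - s) ^ (n + 1)) * volume (body n a b b) := by
  refine (measure_mono (capP_subset ha hb hs1)).trans ?_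
  rw [Measure.addHaar_image_homothety, finrank_euclideanSpace_fin,
    abs_of_nonneg (by have : 0 ≤ 1 - s := by linarith
                      positivity)]

theorem volume_capN_le {a b s : ℝ} (ha : 0 < a) (hb : 0 < b) (hs1 : s < 1) :
    volume (capN n a b s) ≤ ENNReal.ofReal ((1 - s) ^ (n + 1)) * volume (body n a b b) := by
  have h := (flip (0 : Fin (n + 1))).measurePreserving.measure_preimage
    (capP_isCompact (n := n) s ha hb).measurableSet.nullMeasurableSet
  rw [flip_capP] at h
  rw [h]
  exact volume_capP_le ha hb hs1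

theorem body_subset {a b c c' : ℝ} (h : c ≤ c') : body n a b c ⊆ body n a b c' :=
  fun _ hx => ⟨hx.1, hx.2.trans h⟩

theorem body_cover (a b s : ℝ) :
    body n a b b ⊆ body n a b (s * b) ∪ (capP n a b s ∪ capN n a b s) := by
  intro x hx
  by_cases h : |x 0| ≤ s * b
  · exact Or.inl ⟨hx.1, h⟩
  · right
    push Not at h
    rcases abs_cases (x 0) with ⟨h1, -⟩ | ⟨h1, -⟩
    · left
      refine ⟨hx, ?_⟩
      rw [h1] at h
      exact h.le
    · right
      refine ⟨hx, ?_⟩
      rw [h1] at h
      exact h.le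

theorem volume_body_lt_top {a b c : ℝ} (ha : 0 < a) (hb : 0 < b) :
    volume (body n a b c) < ⊤ := (body_isCompact ha hb).measure_lt_top

theorem volume_body_pos {a b c : ℝ} (ha : 0 < a) (hb : 0 < b) (hc : 0 < c) :
    0 < (volume (body n a b c)).toReal := by
  rw [ENNReal.toReal_pos_iff]
  exact ⟨(isOpen_interior.measure_pos volume (body_interior ha hb hc)).trans_le
    (measure_mono interior_subset), volume_body_lt_top ha hb⟩

/-- The part cut off has relative volume at most `2 (1 - s)^(n+1)`. -/
theorem volume_diff_le {a b s : ℝ} (ha : 0 < a) (hb : 0 < b) (hs1 : s < 1) :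
    (volume (body n a b b \ body n a b (s * b))).toReal ≤
      2 * (1 - s) ^ (n + 1) * (volume (body n a b b)).toReal := by
  have h1s : 0 ≤ 1 - s := by linarith
  have hsub : body n a b b \ body n a b (s * b) ⊆ capP n a b s ∪ capN n a b s := by
    intro x hx
    rcases body_cover a b s hx.1 with h | h
    · exact absurd h hx.2
    · exact h
  have h1 : volume (body n a b b \ body n a b (s * b)) ≤
      ENNReal.ofReal (2 * (1 - s) ^ (n + 1)) * volume (body n a b b) := by
    calc volume (body n a b b \ body n a b (s * b)) ≤ volume (capP n a b s ∪ capN n a b s) :=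
          measure_mono hsub
      _ ≤ volume (capP n a b s) + volume (capN n a b s) := measure_union_le _ _
      _ ≤ ENNReal.ofReal ((1 - s) ^ (n + 1)) * volume (body n a b b) +
          ENNReal.ofReal ((1 - s) ^ (n + 1)) * volume (body n a b b) :=
        add_le_add (volume_capP_le ha hb hs1) (volume_capN_le ha hb hs1)
      _ = ENNReal.ofReal (2 * (1 - s) ^ (n + 1)) * volume (body n a b b) := by
        rw [← add_mul, ← ENNReal.ofReal_add (by positivity) (by positivity), ← two_mul]
  have h2 := ENNReal.toReal_mono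
    (ENNReal.mul_ne_top ENNReal.ofReal_ne_top (volume_body_lt_top (n := n) (c := b) ha hb).ne) h1
  rw [ENNReal.toReal_mul, ENNReal.toReal_ofReal (by positivity)] at h2
  exact h2

/-! ### Comparison of the moments -/

theorem vol_sub_le {s : ℝ} (_hs0 : 0 < s) (hs1 : s < 1) :
    vol n 1 - vol n s ≤ 2 * (1 - s) ^ (n + 1) * vol n 1 := by
  have h := volume_diff_le (n := n) one_pos one_pos hs1
  rw [mul_one] at h
  rw [measure_sdiff (body_subset hs1.le) (body_measurable one_pos one_pos).nullMeasurableSet
    (volume_body_lt_top one_pos one_pos).ne, ENNReal.toReal_sub_of_le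
    (measure_mono (body_subset hs1.le)) (volume_body_lt_top one_pos one_pos).ne] at h
  exact h

theorem vol_mono {s : ℝ} (hs1 : s ≤ 1) : vol n s ≤ vol n 1 :=
  ENNReal.toReal_mono (volume_body_lt_top one_pos one_pos).ne (measure_mono (body_subset hs1))

theorem coord_abs_le {s : ℝ} (hs1 : s ≤ 1) {x : E (n + 1)} (hx : x ∈ body n 1 1 s)
    (i : Fin (n + 1)) : |x i| ≤ 1 := by
  refine Fin.cases ?_ (fun k => ?_) i
  · exact hx.2.trans hs1
  · exact body_abs_le one_pos one_pos hx k

theorem integrableOn_sq (s : ℝ) (i : Fin (n + 1)) :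
    IntegrableOn (fun x : E (n + 1) => x i * x i) (body n 1 1 s) volume :=
  ((coord_continuous i).mul (coord_continuous i)).continuousOn.integrableOn_compact
    (body_isCompact one_pos one_pos)

theorem mom_nonneg (s : ℝ) (i : Fin (n + 1)) : 0 ≤ mom n s i :=
  setIntegral_nonneg (body_measurable one_pos one_pos) fun x _ => mul_self_nonneg (x i)

theorem mom_mono {s : ℝ} (hs1 : s ≤ 1) (i : Fin (n + 1)) : mom n s i ≤ mom n 1 i :=
  setIntegral_mono_set (integrableOn_sq 1 i)
    (Filter.Eventually.of_forall fun x => mul_self_nonneg (x i))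
    (Filter.Eventually.of_forall (body_subset hs1))

theorem mom_diff {s : ℝ} (hs1 : s < 1) (i : Fin (n + 1)) :
    mom n 1 i - mom n s i = ∫ x in body n 1 1 1 \ body n 1 1 s, x i * x i :=
  (setIntegral_sdiff (body_measurable one_pos one_pos) (integrableOn_sq 1 i)
    (body_subset hs1.le)).symm

theorem mom_sub_le {s : ℝ} (hs0 : 0 < s) (hs1 : s < 1) (i : Fin (n + 1)) :
    mom n 1 i - mom n s i ≤ 2 * (1 - s) ^ (n + 1) * vol n 1 := by
  rw [mom_diff hs1 i]
  have hlt : volume (body n 1 1 1 \ body n 1 1 s) < ⊤ :=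
    (measure_mono Set.sdiff_subset).trans_lt (volume_body_lt_top one_pos one_pos)
  have h := norm_setIntegral_le_of_norm_le_const (μ := volume) (C := 1)
    (f := fun x : E (n + 1) => x i * x i) hlt (fun x hx => by
      rw [norm_mul, Real.norm_eq_abs]
      have := coord_abs_le le_rfl hx.1 i
      nlinarith [abs_nonneg (x i)])
  have h' := volume_diff_le (n := n) one_pos one_pos hs1
  rw [mul_one] at h'
  rw [one_mul] at h
  exact ((le_abs_self _).trans h).trans h'

theorem mom_le_vol {s : ℝ} (hs1 : s ≤ 1) (i : Fin (n + 1)) : mom n s i ≤ vol n s := by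
  have h := norm_setIntegral_le_of_norm_le_const (μ := volume) (C := 1)
    (f := fun x : E (n + 1) => x i * x i) (volume_body_lt_top (n := n) (c := s) one_pos one_pos)
    (fun x hx => by
      rw [norm_mul, Real.norm_eq_abs]
      have := coord_abs_le hs1 hx i
      nlinarith [abs_nonneg (x i)])
  rw [one_mul] at h
  exact (le_abs_self _).trans h

/-- The second moment in the direction of the apices is small. -/
theorem mom_zero_le {τ : ℝ} (h0 : 0 < τ) (h1 : τ < 1) :
    mom n 1 0 ≤ (τ ^ 2 + 2 * (1 - τ) ^ (n + 1)) * vol n 1 := by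
  have h2 := mom_sub_le h0 h1 (0 : Fin (n + 1))
  have h := norm_setIntegral_le_of_norm_le_const (μ := volume) (C := τ ^ 2)
    (f := fun x : E (n + 1) => x 0 * x 0) (volume_body_lt_top (n := n) (c := τ) one_pos one_pos)
    (fun x hx => by
      rw [norm_mul, Real.norm_eq_abs]
      have := hx.2
      nlinarith [abs_nonneg (x 0)])
  have h3 : mom n τ 0 ≤ τ ^ 2 * vol n τ := (le_abs_self _).trans h
  have h4 : τ ^ 2 * vol n τ ≤ τ ^ 2 * vol n 1 :=
    mul_le_mul_of_nonneg_left (vol_mono h1.le) (by positivity)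
  nlinarith

end Pool.Agent.Lib.MP_9f0ab0_gt
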