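import Pool.Agent.Lib.MP_9f0ab0_gt.Lower

/-!
# Comparison of the sections of the double cone and of its truncation
-/

open MeasureTheory Metric
open scoped RealInnerProductSpace ENNReal Pointwise

namespace Pool.Agent.Lib.MP_9f0ab0_gt

variable {n : ℕ}

theorem sec_smul {ρ : ℝ} (hρ : 0 < ρ) (S : Set (E (n + 1))) {θ : E (n + 1)} (hθ : ‖θ‖ = 1) :
    sec (ρ • S) θ = ENNReal.ofReal (ρ ^ n) * sec S θ := by
  unfold sec
  have : {v : ((ℝ ∙ θ)ᗮ : Submodule ℝ (E (n + 1))) | (v : E (n + 1)) ∈ ρ • S} =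
      ρ • {v : ((ℝ ∙ θ)ᗮ : Submodule ℝ (E (n + 1))) | (v : E (n + 1)) ∈ S} := by
    ext v
    rw [Set.mem_smul_set_iff_inv_smul_mem₀ hρ.ne']
    simp only [Set.mem_ofPred_eq]
    rw [Set.mem_smul_set_iff_inv_smul_mem₀ hρ.ne']
    rfl
  rw [this, Measure.addHaar_smul, finrank_perp hθ, Nat.add_sub_cancel,
    abs_of_pos (by positivity)]

theorem volume_smul_body {ρ : ℝ} (hρ : 0 < ρ) (S : Set (E (n + 1))) :
    volume (ρ • S) = ENNReal.ofReal (ρ ^ (n + 1)) * volume S := by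
  rw [Measure.addHaar_smul, finrank_euclideanSpace_fin, abs_of_pos (by positivity)]

theorem body_subset_smul {a b a' b' s ρ : ℝ} (hs : 0 ≤ s) (_ha : 0 < a) (_hb : 0 < b)
    (ha' : 0 < a') (hb' : 0 < b') (hρ : 0 < ρ) (h1 : a' ≤ ρ * a) (h2 : b' ≤ ρ * b) :
    body n a' b' (s * b') ⊆ ρ • body n a b (s * b) := by
  intro x hx
  rw [Set.mem_smul_set_iff_inv_smul_mem₀ hρ.ne']
  have hc : ∀ i, |(ρ⁻¹ • x : E (n + 1)) i| = |x i| / ρ := by
    intro i
    have : (ρ⁻¹ • x : E (n + 1)) i = ρ⁻¹ * x i := rfl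
    rw [this, abs_mul, abs_of_pos (inv_pos.2 hρ), div_eq_inv_mul]
  refine ⟨fun i => ?_, ?_⟩
  · rw [hc, hc]
    have e1 : |x i.succ| / ρ / a ≤ |x i.succ| / a' := by
      rw [div_div]
      exact div_le_div_of_nonneg_left (abs_nonneg _) ha' h1
    have e2 : |x 0| / ρ / b ≤ |x 0| / b' := by
      rw [div_div]
      exact div_le_div_of_nonneg_left (abs_nonneg _) hb' h2
    linarith [hx.1 i]
  · rw [hc, div_le_iff₀ hρ]
    have := hx.2
    calc |x 0| ≤ s * b' := this
      _ ≤ s * (ρ * b) := mul_le_mul_of_nonneg_left h2 hs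
      _ = s * b * ρ := by ring

theorem sec_lt_top {a b c : ℝ} (ha : 0 < a) (hb : 0 < b) (θ : E (n + 1)) :
    sec (body n a b c) θ < ⊤ := by
  unfold sec
  have hb : Bornology.IsBounded
      {v : ((ℝ ∙ θ)ᗮ : Submodule ℝ (E (n + 1))) | (v : E (n + 1)) ∈ body n a b c} := by
    have h := body_bounded (n := n) (c := c) ha hb
    rw [isBounded_iff_forall_norm_le] at h ⊢
    obtain ⟨C, hC⟩ := h
    exact ⟨C, fun v hv => hC _ hv⟩
  exact hb.measure_lt_top

theorem sectionArea_eq (S : Set (E (n + 1))) {θ : E (n + 1)} (hθ : ‖θ‖ = 1) :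
    sectionArea S θ = (sec S θ).toReal / (volume S).toReal := by
  unfold sectionArea sectionVolume sec
  congr 2
  have h1 : {x : E (n + 1) | x ∈ S ∧ ⟪θ, x⟫ = 0} = Subtype.val ''
      {v : ((ℝ ∙ θ)ᗮ : Submodule ℝ (E (n + 1))) | (v : E (n + 1)) ∈ S} := by
    ext x
    constructor
    · rintro ⟨hx, hx'⟩
      exact ⟨⟨x, Submodule.mem_orthogonal_singleton_iff_inner_right.2 hx'⟩, hx, rfl⟩
    · rintro ⟨v, hv, rfl⟩
      exact ⟨hv, Submodule.mem_orthogonal_singleton_iff_inner_right.1 v.2⟩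
  rw [h1, isometry_subtype_coe.euclideanHausdorffMeasure_image, ← finrank_perp hθ,
    InnerProductSpace.euclideanHausdorffMeasure_eq_volume]

/-- Real arithmetic for the comparison. -/
theorem arith_compare {σp σq σq0 p q q0 r t c η U : ℝ} (hp : 0 < p) (hq : 0 < q)
    (_hq0 : 0 < q0) (hσp : 0 ≤ σp) (hσq : 0 ≤ σq) (hc : 0 ≤ c) (hη0 : 0 ≤ η) (hη : η < 1)
    (hr : 1 ≤ r) (ht : 1 ≤ t)
    (h1 : σp ≤ U * p) (h2 : σp ≤ σq0 + c * p) (h3 : σq0 ≤ σp) (h4 : σq ≤ r * σq0)
    (h4' : σq0 ≤ r * σq) (h5 : q ≤ t * q0) (h5' : q0 ≤ t * q) (h6 : q0 ≤ p)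
    (h6' : p - q0 ≤ η * p) :
    |σp / p - σq / q| ≤ (r * t / (1 - η) - 1) * U + c := by
  have h1η : 0 < 1 - η := by linarith
  have hr0 : 0 < r := by linarith
  have ht0 : 0 < t := by linarith
  have hrt : 1 ≤ r * t := by nlinarith
  have hAU : σp / p ≤ U := by rwa [div_le_iff₀ hp]
  have hA0 : 0 ≤ σp / p := div_nonneg hσp hp.le
  have hU : 0 ≤ U := hA0.trans hAU
  have hB0 : 0 ≤ σq / q := div_nonneg hσq hq.le
  set κ := r * t / (1 - η) with hκ
  have hκrt : r * t ≤ κ := by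
    rw [hκ, le_div_iff₀ h1η]
    nlinarith
  have hκ1 : 1 ≤ κ := hrt.trans hκrt
  -- upper bound
  have hup : σq / q ≤ κ * (σp / p) := by
    rw [div_le_iff₀ hq]
    have e1 : (1 - η) * p ≤ t * q := by linarith
    have e2 : σq ≤ r * σp := h4.trans (mul_le_mul_of_nonneg_left h3 hr0.le)
    calc σq ≤ r * σp := e2
      _ = r * (σp / p) * p := by field_simp
      _ = (r / (1 - η)) * (σp / p) * ((1 - η) * p) := by field_simp
      _ ≤ (r / (1 - η)) * (σp / p) * (t * q) := by gcongr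
      _ = κ * (σp / p) * q := by rw [hκ]; ring
  -- lower bound
  have hlow : (r * t)⁻¹ * (σp / p - c) ≤ σq / q := by
    rcases le_or_gt (σp / p - c) 0 with h | h
    · exact (mul_nonpos_of_nonneg_of_nonpos (by positivity) h).trans hB0
    · rw [inv_mul_le_iff₀ (by positivity), ← mul_div_assoc, le_div_iff₀ hq]
      have e3 : σp / p * p = σp := by field_simp
      calc (σp / p - c) * q ≤ (σp / p - c) * (t * p) := by
            apply mul_le_mul_of_nonneg_left _ h.le
            calc q ≤ t * q0 := h5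
              _ ≤ t * p := by gcongr
        _ = t * (σp / p * p - c * p) := by ring
        _ ≤ t * (r * σq) := by
            rw [e3]
            gcongr
            linarith
        _ = r * t * σq := by ring
  have hinv : 1 - (r * t)⁻¹ ≤ κ - 1 := by
    have hpos : 0 < r * t := by positivity
    have : 2 ≤ r * t + (r * t)⁻¹ := by
      have h2 : (r * t) * (r * t)⁻¹ = 1 := mul_inv_cancel₀ hpos.ne'
      have h3 : 0 < (r * t)⁻¹ := inv_pos.2 hpos
      nlinarith [sq_nonneg (r * t - (r * t)⁻¹), sq_nonneg (r * t - 1)]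
    linarith
  have hinv1 : (r * t)⁻¹ ≤ 1 := inv_le_one_of_one_le₀ hrt
  have hinv0 : 0 ≤ (r * t)⁻¹ := by positivity
  rw [abs_le]
  constructor
  · have : (κ - 1) * (σp / p) ≤ (κ - 1) * U := by
      apply mul_le_mul_of_nonneg_left hAU; linarith
    nlinarith
  · have e1 : σp / p - σq / q ≤ (1 - (r * t)⁻¹) * (σp / p) + (r * t)⁻¹ * c := by nlinarith
    have e2 : (1 - (r * t)⁻¹) * (σp / p) ≤ (κ - 1) * U := by
      calc (1 - (r * t)⁻¹) * (σp / p) ≤ (1 - (r * t)⁻¹) * U := by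
            apply mul_le_mul_of_nonneg_left hAU; linarith
        _ ≤ (κ - 1) * U := by gcongr
    have e3 : (r * t)⁻¹ * c ≤ c := by nlinarith
    linarith

theorem section_compare {a b a' b' s ρ : ℝ} (hs0 : 0 < s) (hs1 : s < 1) (ha : 1 ≤ a) (hb : 1 ≤ b)
    (ha' : 0 < a') (hb' : 0 < b') (hρ : 1 ≤ ρ) (h1 : a' ≤ ρ * a) (h2 : b' ≤ ρ * b)
    (h3 : a ≤ ρ * a') (h4 : b ≤ ρ * b') (hη : 2 * (1 - s) ^ (n + 1) < 1)
    {θ : E (n + 1)} (hθ : ‖θ‖ = 1) :
    |sectionArea (body n a b b) θ - sectionArea (body n a' b' (s * b')) θ| ≤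
      (ρ ^ n * ρ ^ (n + 1) / (1 - 2 * (1 - s) ^ (n + 1)) - 1) * 2 ^ (n + 1) +
        8 * (2 * (1 - s)) ^ n := by
  have ha0 : 0 < a := by linarith
  have hb0 : 0 < b := by linarith
  have hρ0 : 0 < ρ := by linarith
  have h1s : 0 < 1 - s := by linarith
  have tP := (volume_body_lt_top (n := n) (c := b) ha0 hb0).ne
  have tQ := (volume_body_lt_top (n := n) (c := s * b') ha' hb').ne
  have tQ0 := (volume_body_lt_top (n := n) (c := s * b) ha0 hb0).ne
  have sP := (sec_lt_top (n := n) (c := b) ha0 hb0 θ).ne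
  have sQ := (sec_lt_top (n := n) (c := s * b') ha' hb' θ).ne
  have sQ0 := (sec_lt_top (n := n) (c := s * b) ha0 hb0 θ).ne
  have hQ0P : body n a b (s * b) ⊆ body n a b b := body_subset (by nlinarith)
  rw [sectionArea_eq _ hθ, sectionArea_eq _ hθ]
  refine arith_compare (σq0 := (sec (body n a b (s * b)) θ).toReal)
    (q0 := (volume (body n a b (s * b))).toReal)
    (volume_body_pos ha0 hb0 hb0) (volume_body_pos ha' hb' (by positivity))
    (volume_body_pos ha0 hb0 (by positivity)) ENNReal.toReal_nonneg ENNReal.toReal_nonneg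
    (by positivity) (by positivity) hη (one_le_pow₀ hρ) (one_le_pow₀ hρ) ?_ ?_ ?_ ?_ ?_ ?_ ?_ ?_ ?_
  · have h := ENNReal.toReal_mono (ENNReal.mul_ne_top ENNReal.ofReal_ne_top tP)
      (sec_body_le (n := n) ha hb hθ)
    rwa [ENNReal.toReal_mul, ENNReal.toReal_ofReal (by positivity)] at h
  · have h : sec (body n a b b) θ ≤ sec (body n a b (s * b)) θ +
        ENNReal.ofReal (8 * (2 * (1 - s)) ^ n) * volume (body n a b b) :=
      (sec_mono (body_cover a b s) θ).trans ((sec_union_le _ _ θ).trans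
        (add_le_add le_rfl (sec_caps_le ha hb hs0.le hs1 hθ)))
    have h' := ENNReal.toReal_mono (ENNReal.add_ne_top.2
      ⟨sQ0, ENNReal.mul_ne_top ENNReal.ofReal_ne_top tP⟩) h
    rwa [ENNReal.toReal_add sQ0 (ENNReal.mul_ne_top ENNReal.ofReal_ne_top tP),
      ENNReal.toReal_mul, ENNReal.toReal_ofReal (by positivity)] at h'
  · exact ENNReal.toReal_mono sP (sec_mono hQ0P θ)
  · have h := sec_mono (body_subset_smul (n := n) hs0.le ha0 hb0 ha' hb' hρ0 h1 h2) θ
    rw [sec_smul hρ0 _ hθ] at h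
    have h' := ENNReal.toReal_mono (ENNReal.mul_ne_top ENNReal.ofReal_ne_top sQ0) h
    rwa [ENNReal.toReal_mul, ENNReal.toReal_ofReal (by positivity)] at h'
  · have h := sec_mono (body_subset_smul (n := n) hs0.le ha' hb' ha0 hb0 hρ0 h3 h4) θ
    rw [sec_smul hρ0 _ hθ] at h
    have h' := ENNReal.toReal_mono (ENNReal.mul_ne_top ENNReal.ofReal_ne_top sQ) h
    rwa [ENNReal.toReal_mul, ENNReal.toReal_ofReal (by positivity)] at h'
  · have h := measure_mono (μ := volume)
      (body_subset_smul (n := n) hs0.le ha0 hb0 ha' hb' hρ0 h1 h2)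
    rw [volume_smul_body hρ0] at h
    have h' := ENNReal.toReal_mono (ENNReal.mul_ne_top ENNReal.ofReal_ne_top tQ0) h
    rwa [ENNReal.toReal_mul, ENNReal.toReal_ofReal (by positivity)] at h'
  · have h := measure_mono (μ := volume)
      (body_subset_smul (n := n) hs0.le ha' hb' ha0 hb0 hρ0 h3 h4)
    rw [volume_smul_body hρ0] at h
    have h' := ENNReal.toReal_mono (ENNReal.mul_ne_top ENNReal.ofReal_ne_top tQ) h
    rwa [ENNReal.toReal_mul, ENNReal.toReal_ofReal (by positivity)] at h'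
  · exact ENNReal.toReal_mono tP (measure_mono hQ0P)
  · have h := volume_diff_le (n := n) ha0 hb0 hs1
    rw [measure_sdiff hQ0P (body_measurable ha0 hb0).nullMeasurableSet tQ0,
      ENNReal.toReal_sub_of_le (measure_mono hQ0P) tP] at h
    exact h

/-! ### The Hausdorff distance -/

theorem hausdorff_ge {a b a' b' s : ℝ} (hs0 : 0 < s) (ha : 0 < a) (hb : 0 < b)
    (ha' : 0 < a') (hb' : 0 < b') :
    b - s * b' ≤ hausdorffDist (body n a b b) (body n a' b' (s * b')) := by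
  have hp : (EuclideanSpace.single 0 b : E (n + 1)) ∈ body n a b b := by
    refine ⟨fun i => ?_, ?_⟩
    · simp [abs_of_pos hb, hb.ne']
    · simp [abs_of_pos hb]
  have hQne : (body n a' b' (s * b')).Nonempty :=
    (body_interior ha' hb' (by positivity)).mono interior_subset
  have hfin : hausdorffEDist (body n a b b) (body n a' b' (s * b')) ≠ ⊤ :=
    hausdorffEDist_ne_top_of_nonempty_of_bounded ⟨_, hp⟩ hQne (body_bounded ha hb)
      (body_bounded ha' hb')
  refine le_trans ?_ (infDist_le_hausdorffDist_of_mem hp hfin)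
  rw [le_infDist hQne]
  intro y hy
  have h1 := hy.2
  have h2 := abs_apply_le_norm ((EuclideanSpace.single 0 b : E (n + 1)) - y) 0
  rw [← dist_eq_norm] at h2
  have h3 : ((EuclideanSpace.single 0 b : E (n + 1)) - y) 0 = b - y 0 := by simp
  rw [h3] at h2
  have h4 := le_abs_self (b - y 0)
  have h5 := le_abs_self (y 0)
  linarith

end Pool.Agent.Lib.MP_9f0ab0_gt
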