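import Pool.Agent.Lib.MP_9f0ab0_gt.Defs

/-!
# An upper bound for the area of hyperplane sections of a convex set
-/

open MeasureTheory Metric
open scoped RealInnerProductSpace ENNReal

namespace Pool.Agent.Lib.MP_9f0ab0_gt

variable {d : ℕ}

theorem finrank_perp {θ : E d} (hθ : ‖θ‖ = 1) :
    Module.finrank ℝ ((ℝ ∙ θ)ᗮ : Submodule ℝ (E d)) = d - 1 := by
  have h0 : θ ≠ 0 := by
    intro h; rw [h, norm_zero] at hθ; exact zero_ne_one hθ
  have h1 := Submodule.finrank_add_finrank_orthogonal (ℝ ∙ θ : Submodule ℝ (E d))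
  rw [finrank_span_singleton h0, finrank_euclideanSpace_fin] at h1
  omega

theorem volume_line_closedBall {θ : E d} (hθ : ‖θ‖ = 1) (c : (ℝ ∙ θ : Submodule ℝ (E d)))
    (r : ℝ) : volume (closedBall c r) = ENNReal.ofReal (2 * r) := by
  have e : ℝ ≃ₗᵢ[ℝ] (ℝ ∙ θ : Submodule ℝ (E d)) :=
    LinearIsometryEquiv.toSpanUnitSingleton (𝕜 := ℝ) θ hθ
  have h := e.measurePreserving.measure_preimage
    (s := closedBall c r) isClosed_closedBall.measurableSet.nullMeasurableSet
  rw [← h]
  rw [LinearIsometryEquiv.preimage_closedBall, Real.volume_closedBall]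

theorem section_le {M : Set (E d)} (hM : Convex ℝ M) (hMm : MeasurableSet M) {z : E d} {r : ℝ}
    (hr : 0 < r) (hball : closedBall z r ⊆ M) {θ : E d} (hθ : ‖θ‖ = 1) :
    volume {v : ((ℝ ∙ θ)ᗮ : Submodule ℝ (E d)) | (v : E d) ∈ M} ≤
      ENNReal.ofReal (2 ^ (d - 1) / r) * volume M := by
  set K : Submodule ℝ (E d) := ℝ ∙ θ with hK
  set S : Set Kᗮ := {v : Kᗮ | (v : E d) ∈ M} with hS
  set zK : K := K.orthogonalProjectionOnto z with hzK
  set zP : Kᗮ := Kᗮ.orthogonalProjectionOnto z with hzP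
  let A : Set Kᗮ := (fun v : Kᗮ => (2 : ℝ) • v) ⁻¹' ((fun v : Kᗮ => v + (-zP)) ⁻¹' S)
  let B : Set K := closedBall ((1 / 2 : ℝ) • zK) (r / 2)
  have hSm : MeasurableSet S := hMm.preimage measurable_subtype_coe
  have hA : volume A = ENNReal.ofReal |((2 : ℝ) ^ (d - 1))⁻¹| * volume S := by
    have h1 := Measure.addHaar_preimage_smul (volume : Measure Kᗮ) (r := (2 : ℝ)) (by norm_num)
      ((fun v : Kᗮ => v + (-zP)) ⁻¹' S)
    rw [finrank_perp hθ, measure_preimage_add_right] at h1
    exact h1
  have hB : volume B = ENNReal.ofReal r := by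
    have := volume_line_closedBall hθ ((1 / 2 : ℝ) • zK) (r / 2)
    rw [show 2 * (r / 2) = r by ring] at this
    exact this
  have hBm : MeasurableSet B := isClosed_closedBall.measurableSet
  have hAm : MeasurableSet A := by
    have hc1 : Continuous (fun v : Kᗮ => v + (-zP)) := by fun_prop
    have hc2 : Continuous (fun v : Kᗮ => (2 : ℝ) • v) := by fun_prop
    exact (hSm.preimage hc1.measurable).preimage hc2.measurable
  have hmp := K.measurePreserving_measurableEquivProd (0 : E d)
  rw [InnerProductSpace.euclideanHausdorffMeasure_eq_volume] at hmp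
  have hvol : volume ((K.measurableEquivProd (0 : E d)) ⁻¹' (B ×ˢ A)) = volume B * volume A := by
    rw [hmp.measure_preimage (hBm.prod hAm).nullMeasurableSet, Measure.volume_eq_prod,
      Measure.prod_prod]
  have hsub : (K.measurableEquivProd (0 : E d)) ⁻¹' (B ×ˢ A) ⊆ M := by
    intro x hx
    rw [Set.mem_preimage, Submodule.measurableEquivProd_apply, Set.mem_prod] at hx
    obtain ⟨hxB, hxA⟩ := hx
    simp only [vsub_eq_sub, sub_zero] at hxB hxA
    set xK := K.orthogonalProjectionOnto x with hxK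
    set xP := Kᗮ.orthogonalProjectionOnto x with hxP
    have hx0 : x = (xK : E d) + (xP : E d) := by
      have := K.starProjection_add_starProjection_orthogonal x
      rw [hxK, hxP]
      exact this.symm
    have hz0 : z = (zK : E d) + (zP : E d) := by
      have := K.starProjection_add_starProjection_orthogonal z
      rw [hzK, hzP]
      exact this.symm
    have h1 : (2 : ℝ) • (xP : E d) - (zP : E d) ∈ M := by
      have : ((2 : ℝ) • xP + (-zP) : Kᗮ) ∈ S := hxA
      rw [hS, Set.mem_ofPred_eq] at this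
      simpa [sub_eq_add_neg] using this
    have h2 : z + ((2 : ℝ) • (xK : E d) - (zK : E d)) ∈ M := by
      apply hball
      rw [mem_closedBall, dist_eq_norm, add_sub_cancel_left]
      rw [mem_closedBall, dist_eq_norm] at hxB
      have h3 : (2 : ℝ) • (xK : E d) - (zK : E d) =
          (2 : ℝ) • ((xK - (1 / 2 : ℝ) • zK : K) : E d) := by
        push_cast
        rw [smul_sub, smul_smul]
        norm_num
      rw [h3, norm_smul, Submodule.norm_coe]
      rw [Real.norm_eq_abs, abs_of_pos (by norm_num : (0 : ℝ) < 2)]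
      linarith
    have h4 := hM h1 h2 (by norm_num : (0 : ℝ) ≤ 1 / 2) (by norm_num : (0 : ℝ) ≤ 1 / 2)
      (by norm_num)
    convert h4 using 1
    rw [hx0, hz0]
    module
  have hle : ENNReal.ofReal r * (ENNReal.ofReal |((2 : ℝ) ^ (d - 1))⁻¹| * volume S) ≤
      volume M := by
    rw [← hA, ← hB, ← hvol]
    exact measure_mono hsub
  have h2pos : (0 : ℝ) < 2 ^ (d - 1) := by positivity
  rw [abs_of_pos (inv_pos.2 h2pos), ← mul_assoc, ← ENNReal.ofReal_mul hr.le] at hle
  calc volume S = ENNReal.ofReal (2 ^ (d - 1) / r) * (ENNReal.ofReal (r * (2 ^ (d - 1))⁻¹) *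
        volume S) := by
        rw [← mul_assoc, ← ENNReal.ofReal_mul (by positivity)]
        rw [show (2 ^ (d - 1) / r * (r * (2 ^ (d - 1))⁻¹) : ℝ) = 1 by field_simp]
        simp
    _ ≤ ENNReal.ofReal (2 ^ (d - 1) / r) * volume M := by gcongr

end Pool.Agent.Lib.MP_9f0ab0_gt
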