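import Mathlib

/-!
# Isotropic polytopes and their central sections: definitions
-/

open MeasureTheory Metric
open scoped RealInnerProductSpace

namespace Pool.Agent.Lib.MP_9f0ab0_gt

/-- `ℝ^d` with its Euclidean norm, inner product and Lebesgue measure `volume`. -/
abbrev E (d : ℕ) := EuclideanSpace ℝ (Fin d)

variable {d : ℕ}

/-- A polytope in `ℝ^d`: a compact convex polyhedron (a finite intersection of closed half spaces)
with nonempty interior. -/
structure IsPolytope (P : Set (E d)) : Prop where
  isCompact : IsCompact P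
  interior_nonempty : (interior P).Nonempty
  polyhedron : ∃ s : Finset (E d × ℝ), P = {x | ∀ p ∈ s, ⟪p.1, x⟫ ≤ p.2}

/-- `F` is a facet of `P ⊆ ℝ^d`: a nonempty exposed face whose affine hull has
dimension `d - 1`. -/
def IsFacet (P F : Set (E d)) : Prop :=
  IsExposed ℝ P F ∧ F.Nonempty ∧ Module.finrank ℝ (vectorSpan ℝ F) + 1 = d

/-- `P` has at most `N` facets. -/
def AtMostFacets (P : Set (E d)) (N : ℕ) : Prop :=
  {F : Set (E d) | IsFacet P F}.encard ≤ N

/-- `P` is isotropic: the uniform probability distribution on `P` has mean `0` and identity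
covariance. -/
def IsIsotropic (P : Set (E d)) : Prop :=
  (∀ i : Fin d, (volume P).toReal⁻¹ * ∫ x in P, x i = 0) ∧
  (∀ i j : Fin d, (volume P).toReal⁻¹ * ∫ x in P, x i * x j = if i = j then 1 else 0)

/-- The `(d-1)`-dimensional volume of `P ∩ θ^⊥`. Here `μHE[k]` is the `k`-dimensional Euclidean
Hausdorff measure of Mathlib, which is the Lebesgue measure on `k`-dimensional subspaces. -/
noncomputable def sectionVolume (P : Set (E d)) (θ : E d) : ℝ :=
  (μHE[d - 1] {x : E d | x ∈ P ∧ ⟪θ, x⟫ = 0}).toReal

/-- The relative central sectional area `A_P(θ)` of `P` in direction `θ`: the `(d-1)`-dimensional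
volume of `P ∩ θ^⊥` divided by the volume of `P`. -/
noncomputable def sectionArea (P : Set (E d)) (θ : E d) : ℝ :=
  sectionVolume P θ / (volume P).toReal

/-- `P` is an isotropic centrally symmetric polytope with at most `N` facets. -/
structure Admissible (N : ℕ) (P : Set (E d)) : Prop where
  polytope : IsPolytope P
  symm : P = -P
  isotropic : IsIsotropic P
  facets : AtMostFacets P N

/-- `|A_P(θ) - A_Q(θ)| ≤ ε` for all unit vectors `θ`. -/
def SectionsWithin (ε : ℝ) (P Q : Set (E d)) : Prop :=
  ∀ θ : E d, ‖θ‖ = 1 → |sectionArea P θ - sectionArea Q θ| ≤ ε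

end Pool.Agent.Lib.MP_9f0ab0_gt
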