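import Pool.Agent.Lib.MP_9f0ab0_gt.Defs

/-!
# An intersection of `N` half spaces has at most `N` facets
-/

open MeasureTheory Metric
open scoped RealInnerProductSpace

namespace Pool.Agent.Lib.MP_9f0ab0_gt

variable {d : ℕ}

/-- The intersection of the half spaces in `s`. -/
def Inter (s : Finset (E d × ℝ)) : Set (E d) := {x | ∀ p ∈ s, ⟪p.1, x⟫ ≤ p.2}

theorem Inter_convex (s : Finset (E d × ℝ)) : Convex ℝ (Inter s) := by
  intro x hx y hy a b ha hb hab p hp
  rw [inner_add_right, inner_smul_right, inner_smul_right]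
  have h1 := mul_le_mul_of_nonneg_left (hx p hp) ha
  have h2 := mul_le_mul_of_nonneg_left (hy p hp) hb
  calc a * ⟪p.1, x⟫ + b * ⟪p.1, y⟫ ≤ a * p.2 + b * p.2 := add_le_add h1 h2
    _ = p.2 := by rw [← add_mul, hab, one_mul]

theorem Inter_closed (s : Finset (E d × ℝ)) : IsClosed (Inter s) := by
  have : Inter s = ⋂ p ∈ s, {x | ⟪p.1, x⟫ ≤ p.2} := by
    ext x; simp [Inter]
  rw [this]
  refine isClosed_biInter fun p _ => ?_
  exact isClosed_le (continuous_const.inner continuous_id) continuous_const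

/-- If no single constraint of `t` is active on the whole convex set `F ⊆ Inter s`, then some point
of `F` satisfies all constraints of `t` strictly. -/
theorem exists_strict (s : Finset (E d × ℝ)) (F : Set (E d)) (hF : Convex ℝ F)
    (hFs : F ⊆ Inter s) (hne : F.Nonempty) (t : Finset (E d × ℝ)) (hts : t ⊆ s)
    (h : ∀ p ∈ t, ∃ x ∈ F, ⟪p.1, x⟫ < p.2) : ∃ x ∈ F, ∀ p ∈ t, ⟪p.1, x⟫ < p.2 := by
  classical
  induction t using Finset.induction_on with
  | empty =>
    obtain ⟨x, hx⟩ := hne
    exact ⟨x, hx, by simp⟩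
  | insert q t hq ih =>
    obtain ⟨x, hx, hxt⟩ := ih (fun p hp => hts (Finset.mem_insert_of_mem hp))
      (fun p hp => h p (Finset.mem_insert_of_mem hp))
    obtain ⟨y, hy, hyq⟩ := h q (Finset.mem_insert_self _ _)
    refine ⟨(1 / 2 : ℝ) • x + (1 / 2 : ℝ) • y,
      hF hx hy (by norm_num) (by norm_num) (by norm_num), ?_⟩
    intro p hp
    rw [inner_add_right, inner_smul_right, inner_smul_right]
    have h1 := hFs hx p (hts hp)
    have h2 := hFs hy p (hts hp)
    rcases Finset.mem_insert.1 hp with rfl | hp'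
    · linarith
    · have := hxt p hp'
      linarith

theorem facet_eq (s : Finset (E d × ℝ)) (hint : (interior (Inter s)).Nonempty)
    (F : Set (E d)) (hF : IsFacet (Inter s) F) :
    ∃ p ∈ s, F = {x ∈ Inter s | ⟪p.1, x⟫ = p.2} := by
  classical
  obtain ⟨hexp, hne, hrank⟩ := hF
  obtain ⟨l, hl⟩ := hexp hne
  have hFs : F ⊆ Inter s := by
    rw [hl]; exact fun x hx => hx.1
  have hconv : Convex ℝ F := hexp.convex (Inter_convex s)
  have hPne : (Inter s).Nonempty := hint.mono interior_subset
  -- the functional is nonzero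
  have hFP : F ≠ Inter s := by
    intro h
    have h1 : affineSpan ℝ (Inter s) = ⊤ := by
      rw [eq_top_iff, ← IsOpen.affineSpan_eq_top isOpen_interior hint]
      exact affineSpan_mono ℝ interior_subset
    have h2 : vectorSpan ℝ (Inter s) = ⊤ := by
      rw [← direction_affineSpan, h1, AffineSubspace.direction_top]
    rw [h, h2, finrank_top, finrank_euclideanSpace_fin] at hrank
    omega
  -- step 1: some constraint is active on all of `F`
  have hactive : ∃ p ∈ s, p.1 ≠ 0 ∧ ∀ x ∈ F, ⟪p.1, x⟫ = p.2 := by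
    by_contra hcon
    push Not at hcon
    obtain ⟨x, hx, hxs⟩ := exists_strict s F hconv hFs hne (s.filter fun p => p.1 ≠ 0)
      (Finset.filter_subset _ _) (by
        intro p hp
        rw [Finset.mem_filter] at hp
        obtain ⟨x, hx, hx'⟩ := hcon p hp.1 hp.2
        exact ⟨x, hx, lt_of_le_of_ne (hFs hx p hp.1) hx'⟩)
    have hxint : x ∈ interior (Inter s) := by
      rw [mem_interior]
      refine ⟨⋂ p ∈ s.filter fun p => p.1 ≠ 0, {x | ⟪p.1, x⟫ < p.2}, ?_, ?_, ?_⟩
      · intro y hy p hp
        by_cases hp0 : p.1 = 0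
        · obtain ⟨z, hz⟩ := hPne
          have := hz p hp
          rw [hp0, inner_zero_left] at this ⊢
          exact this
        · have : y ∈ {x : E d | ⟪p.1, x⟫ < p.2} :=
            Set.mem_iInter₂.1 hy p (Finset.mem_filter.2 ⟨hp, hp0⟩)
          exact le_of_lt this
      · refine isOpen_biInter_finset fun p _ => ?_
        exact isOpen_lt (continuous_const.inner continuous_id) continuous_const
      · exact Set.mem_iInter₂.2 fun p hp => hxs p hp
    have hmax : IsLocalMax l x := by
      have hx' := hx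
      rw [hl] at hx'
      filter_upwards [mem_interior_iff_mem_nhds.1 hxint] with y hy
      exact hx'.2 y hy
    have hl0 : l = 0 := hmax.hasFDerivAt_eq_zero l.hasFDerivAt
    apply hFP
    rw [hl, hl0]
    ext y
    simp
  obtain ⟨p, hp, hp0, hpF⟩ := hactive
  refine ⟨p, hp, ?_⟩
  apply Set.Subset.antisymm
  · exact fun x hx => ⟨hFs hx, hpF x hx⟩
  · rintro x ⟨hxP, hxp⟩
    obtain ⟨x0, hx0⟩ := hne
    -- the direction of `F` is the orthogonal complement of `p.1`
    have hle : vectorSpan ℝ F ≤ (ℝ ∙ p.1)ᗮ := by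
      rw [vectorSpan_def, Submodule.span_le]
      rintro v ⟨y, hy, z, hz, rfl⟩
      rw [SetLike.mem_coe, Submodule.mem_orthogonal_singleton_iff_inner_right]
      show ⟪p.1, y - z⟫ = 0
      rw [inner_sub_right, hpF y hy, hpF z hz, sub_self]
    have hrankW : Module.finrank ℝ ((ℝ ∙ p.1)ᗮ : Submodule ℝ (E d)) + 1 = d := by
      have h1 := Submodule.finrank_add_finrank_orthogonal (ℝ ∙ p.1 : Submodule ℝ (E d))
      rw [finrank_span_singleton hp0, finrank_euclideanSpace_fin] at h1
      omega
    have heq : vectorSpan ℝ F = (ℝ ∙ p.1)ᗮ :=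
      Submodule.eq_of_le_of_finrank_eq hle (by omega)
    have hl0 : ∀ y ∈ F, ∀ z ∈ F, l y = l z := by
      intro y hy z hz
      have hy' := hy; have hz' := hz
      rw [hl] at hy' hz'
      exact le_antisymm (hz'.2 y (hFs hy)) (hy'.2 z (hFs hz))
    have hker : ∀ v ∈ vectorSpan ℝ F, l v = 0 := by
      intro v hv
      rw [vectorSpan_def] at hv
      induction hv using Submodule.span_induction with
      | mem v hv =>
        obtain ⟨y, hy, z, hz, rfl⟩ := hv
        simp only [vsub_eq_sub, map_sub, hl0 y hy z hz, sub_self]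
      | zero => simp
      | add u v _ _ hu hv => rw [map_add, hu, hv, add_zero]
      | smul a v _ hv => rw [map_smul, hv, smul_zero]
    have hx0x : x - x0 ∈ vectorSpan ℝ F := by
      rw [heq, Submodule.mem_orthogonal_singleton_iff_inner_right, inner_sub_right, hxp,
        hpF x0 hx0, sub_self]
    have hlx : l x = l x0 := by
      have := hker _ hx0x
      rw [map_sub, sub_eq_zero] at this
      exact this
    have hx0' := hx0
    rw [hl] at hx0' ⊢
    refine ⟨hxP, fun y hy => ?_⟩
    rw [hlx]
    exact hx0'.2 y hy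

theorem atMostFacets_Inter (s : Finset (E d × ℝ)) (hint : (interior (Inter s)).Nonempty) :
    AtMostFacets (Inter s) s.card := by
  classical
  unfold AtMostFacets
  have hsub : {F : Set (E d) | IsFacet (Inter s) F} ⊆
      (fun p : E d × ℝ => {x ∈ Inter s | ⟪p.1, x⟫ = p.2}) '' (s : Set (E d × ℝ)) := by
    intro F hF
    obtain ⟨p, hp, h⟩ := facet_eq s hint F hF
    exact ⟨p, hp, h.symm⟩
  calc {F : Set (E d) | IsFacet (Inter s) F}.encard
      ≤ ((fun p : E d × ℝ => {x ∈ Inter s | ⟪p.1, x⟫ = p.2}) '' (s : Set (E d × ℝ))).encard :=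
        Set.encard_le_encard hsub
    _ ≤ (s : Set (E d × ℝ)).encard := Set.encard_image_le _ _
    _ = s.card := Set.encard_coe_eq_coe_finsetCard s

end Pool.Agent.Lib.MP_9f0ab0_gt
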