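import Pool.Agent.Lib.MP_9f0ab0_gt.Compare

/-!
# The counterexample
-/

open MeasureTheory Metric Filter
open scoped RealInnerProductSpace ENNReal Topology

namespace Pool.Agent.Lib.MP_9f0ab0_gt

variable {n : ℕ}

/-- The error parameter. -/
noncomputable def eps (n : ℕ) : ℝ := 128 * (2 / 5) ^ (n + 1)

/-- The relative volume cut off. -/
noncomputable def eta (n : ℕ) : ℝ := 2 * (1 - 4 / 5) ^ (n + 1)

theorem eps_pos (n : ℕ) : 0 < eps n := by unfold eps; positivity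

theorem eta_eq (n : ℕ) : eta n * (64 * 2 ^ (n + 1)) = eps n := by
  unfold eta eps
  have h : (2 / 5 : ℝ) ^ (n + 1) = (1 - 4 / 5) ^ (n + 1) * 2 ^ (n + 1) := by
    rw [← mul_pow]; norm_num
  rw [h]
  ring

theorem eta_pos (n : ℕ) : 0 < eta n := by
  unfold eta
  have : (0 : ℝ) < 1 - 4 / 5 := by norm_num
  positivity

theorem eta_le_eps (n : ℕ) : eta n ≤ eps n := by
  rw [← eta_eq]
  have h1 := eta_pos n
  have h2 : (1 : ℝ) ≤ 64 * 2 ^ (n + 1) := by
    have : (1 : ℝ) ≤ 2 ^ (n + 1) := one_le_pow₀ (by norm_num)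
    linarith
  nlinarith

theorem ratio_bounds (i : Fin (n + 1)) (hε : eps n < 1) :
    0 < mom n (4 / 5) i ∧
    vol n (4 / 5) / mom n (4 / 5) i ≤ (1 - eps n)⁻¹ * (vol n 1 / mom n 1 i) ∧
    vol n 1 / mom n 1 i ≤ (1 - eps n)⁻¹ * (vol n (4 / 5) / mom n (4 / 5) i) := by
  have hV1 : 0 < vol n 1 := vol_pos one_pos
  have hVs : 0 < vol n (4 / 5) := vol_pos (by norm_num)
  have hM1 : 1 / 64 ≤ mom n 1 i := mom_ge i
  have hMs : mom n (4 / 5) i ≤ mom n 1 i := mom_mono (by norm_num) i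
  have hd : mom n 1 i - mom n (4 / 5) i ≤ eta n * vol n 1 :=
    mom_sub_le (by norm_num) (by norm_num) i
  have hv : vol n 1 - vol n (4 / 5) ≤ eta n * vol n 1 := vol_sub_le (by norm_num) (by norm_num)
  have hVle : vol n 1 ≤ 2 ^ (n + 1) := vol_le
  have hη := eta_pos n
  have hηε := eta_le_eps n
  have h1ε : 0 < 1 - eps n := by linarith
  have hηV : eta n * vol n 1 ≤ eps n * mom n 1 i := by
    rw [← eta_eq]
    calc eta n * vol n 1 ≤ eta n * 2 ^ (n + 1) := by gcongr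
      _ = eta n * (64 * 2 ^ (n + 1)) * (1 / 64) := by ring
      _ ≤ eta n * (64 * 2 ^ (n + 1)) * mom n 1 i := by gcongr
  have hM1' : 0 < mom n 1 i := by linarith
  have hMs' : (1 - eps n) * mom n 1 i ≤ mom n (4 / 5) i := by linarith
  have hMs0 : 0 < mom n (4 / 5) i := lt_of_lt_of_le (by positivity) hMs'
  have hVs' : (1 - eps n) * vol n 1 ≤ vol n (4 / 5) := by
    have : eta n * vol n 1 ≤ eps n * vol n 1 := by gcongr
    linarith
  have hVs1 : vol n (4 / 5) ≤ vol n 1 := vol_mono (by norm_num)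
  refine ⟨hMs0, ?_, ?_⟩
  · rw [div_le_iff₀ hMs0]
    calc vol n (4 / 5) ≤ vol n 1 := hVs1
      _ = (1 - eps n)⁻¹ * (vol n 1 / mom n 1 i) * ((1 - eps n) * mom n 1 i) := by field_simp
      _ ≤ (1 - eps n)⁻¹ * (vol n 1 / mom n 1 i) * mom n (4 / 5) i := by gcongr
  · rw [div_le_iff₀ hM1']
    calc vol n 1 = (1 - eps n)⁻¹ * ((1 - eps n) * vol n 1) := by field_simp
      _ ≤ (1 - eps n)⁻¹ * vol n (4 / 5) := by gcongr
      _ = (1 - eps n)⁻¹ * (vol n (4 / 5) / mom n (4 / 5) i) * mom n (4 / 5) i := by field_simp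
      _ ≤ (1 - eps n)⁻¹ * (vol n (4 / 5) / mom n (4 / 5) i) * mom n 1 i := by gcongr

/-- The counterexample in dimension `n + 1`. -/
theorem exists_pair (hn : 3 ≤ n) {R : ℝ} (hR : 0 < R) {δ τ : ℝ} (hε : (n + 2) * eps n ≤ 1 / 2)
    (hδ : 256 * (n + 2) * (4 / 5) ^ (n + 1) + 8 * (2 / 5) ^ n ≤ δ)
    (hτ0 : 0 < τ) (hτ1 : τ < 1) (hτ : (τ ^ 2 + 2 * (1 - τ) ^ (n + 1)) * (50 * R ^ 2) ≤ 1) :
    ∃ P Q : Set (E (n + 1)), IsPolytope P ∧ IsPolytope Q ∧ P = -P ∧ Q = -Q ∧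
      IsIsotropic P ∧ IsIsotropic Q ∧
      AtMostFacets P (4 * n + 2) ∧ AtMostFacets Q (4 * n + 2) ∧
      (∀ θ : E (n + 1), ‖θ‖ = 1 → |sectionArea P θ - sectionArea Q θ| ≤ δ) ∧
      R < hausdorffDist P Q := by
  have hε0 := eps_pos n
  have hn2 : (5 : ℝ) ≤ n + 2 := by
    have : (3 : ℝ) ≤ n := by exact_mod_cast hn
    linarith
  have hε10 : eps n ≤ 1 / 10 := by nlinarith
  have hε1 : eps n < 1 := by linarith
  have h1ε : 0 < 1 - eps n := by linarith
  let i₀ : Fin n := ⟨0, by omega⟩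
  set V1 := vol n 1 with hV1def
  set Vs := vol n (4 / 5) with hVsdef
  have hV1 : 0 < V1 := vol_pos one_pos
  have hVs : 0 < Vs := vol_pos (by norm_num)
  obtain ⟨hαs, hα1, hα2⟩ := ratio_bounds (n := n) i₀.succ hε1
  obtain ⟨hβs, hβ1, hβ2⟩ := ratio_bounds (n := n) 0 hε1
  set α1 := mom n 1 i₀.succ with hα1def
  set αs := mom n (4 / 5) i₀.succ with hαsdef
  set β1 := mom n 1 0 with hβ1def
  set βs := mom n (4 / 5) 0 with hβsdef
  have hα1p : 0 < α1 := lt_of_lt_of_le (by norm_num) (mom_ge (n := n) i₀.succ)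
  have hβ1p : 0 < β1 := lt_of_lt_of_le (by norm_num) (mom_ge (n := n) 0)
  set a := Real.sqrt (V1 / α1) with ha
  set b := Real.sqrt (V1 / β1) with hb
  set a' := Real.sqrt (Vs / αs) with ha'
  set b' := Real.sqrt (Vs / βs) with hb'
  set ρ := Real.sqrt ((1 - eps n)⁻¹) with hρ
  have hρsq : ρ ^ 2 = (1 - eps n)⁻¹ := Real.sq_sqrt (by positivity)
  have hρ1 : 1 ≤ ρ := by
    rw [hρ, Real.one_le_sqrt]
    exact (one_le_inv₀ h1ε).2 (by linarith)
  have hρ0 : 0 < ρ := by linarith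
  have ha1 : 1 ≤ a := by
    rw [ha, Real.one_le_sqrt, le_div_iff₀ hα1p, one_mul]
    exact mom_le_vol le_rfl _
  have hb1 : 1 ≤ b := by
    rw [hb, Real.one_le_sqrt, le_div_iff₀ hβ1p, one_mul]
    exact mom_le_vol le_rfl _
  have ha'0 : 0 < a' := Real.sqrt_pos.2 (by positivity)
  have hb'0 : 0 < b' := Real.sqrt_pos.2 (by positivity)
  have ha0 : 0 < a := by linarith
  have hb0 : 0 < b := by linarith
  have e1 : a' ≤ ρ * a := by
    rw [ha', hρ, ha, ← Real.sqrt_mul (by positivity)]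
    exact Real.sqrt_le_sqrt hα1
  have e2 : b' ≤ ρ * b := by
    rw [hb', hρ, hb, ← Real.sqrt_mul (by positivity)]
    exact Real.sqrt_le_sqrt hβ1
  have e3 : a ≤ ρ * a' := by
    rw [ha', hρ, ha, ← Real.sqrt_mul (by positivity)]
    exact Real.sqrt_le_sqrt hα2
  have e4 : b ≤ ρ * b' := by
    rw [hb', hρ, hb, ← Real.sqrt_mul (by positivity)]
    exact Real.sqrt_le_sqrt hβ2
  have hisoP : IsIsotropic (body n a b b) := by
    have := body_isotropic (n := n) (s := 1) ha0 hb0 one_pos (fun i => by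
      rw [mom_succ 1 i i₀, ha, Real.sq_sqrt (by positivity)]
      exact div_mul_cancel₀ _ hα1p.ne') (by
      rw [hb, Real.sq_sqrt (by positivity)]
      exact div_mul_cancel₀ _ hβ1p.ne')
    rwa [one_mul] at this
  have hisoQ : IsIsotropic (body n a' b' (4 / 5 * b')) := by
    refine body_isotropic (n := n) ha'0 hb'0 (by norm_num) (fun i => ?_) ?_
    · rw [mom_succ (4 / 5) i i₀, ha', Real.sq_sqrt (by positivity)]
      exact div_mul_cancel₀ _ hαs.ne'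
    · rw [hb', Real.sq_sqrt (by positivity)]
      exact div_mul_cancel₀ _ hβs.ne'
  refine ⟨body n a b b, body n a' b' (4 / 5 * b'), body_isPolytope ha0 hb0 hb0,
    body_isPolytope ha'0 hb'0 (by positivity), (body_neg _ _ _).symm, (body_neg _ _ _).symm,
    hisoP, hisoQ, body_facets ha0 hb0 hb0, body_facets ha'0 hb'0 (by positivity), ?_, ?_⟩
  · intro θ hθ
    have hη1 : eta n < 1 := lt_of_le_of_lt (eta_le_eps n) hε1
    have h := section_compare (n := n) (s := 4 / 5) (by norm_num) (by norm_num) ha1 hb1 ha'0 hb'0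
      hρ1 e1 e2 e3 e4 hη1 hθ
    refine h.trans (le_trans ?_ hδ)
    have hpow : ρ ^ n * ρ ^ (n + 1) ≤ ((1 - eps n)⁻¹) ^ (n + 1) := by
      rw [← hρsq, ← pow_mul, ← pow_add]
      exact pow_le_pow_right₀ hρ1 (by omega)
    have hx : (n + 2 : ℝ) * eps n ≤ 1 / 2 := hε
    have hbern : 1 - (n + 2 : ℝ) * eps n ≤ (1 - eps n) ^ (n + 2) := by
      have := one_add_mul_le_pow (a := -eps n) (by linarith) (n + 2)
      push_cast at this
      have e : (1 + -eps n) = 1 - eps n := by ring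
      rw [e] at this
      linarith
    have hκ : ρ ^ n * ρ ^ (n + 1) / (1 - 2 * (1 - 4 / 5) ^ (n + 1)) - 1 ≤
        2 * ((n + 2 : ℝ) * eps n) := by
      have h2 : 1 - eps n ≤ 1 - 2 * (1 - 4 / 5) ^ (n + 1) := by
        have := eta_le_eps n
        unfold eta at this
        linarith
      have h3 : ρ ^ n * ρ ^ (n + 1) / (1 - 2 * (1 - 4 / 5) ^ (n + 1)) ≤
          ((1 - eps n)⁻¹) ^ (n + 1) / (1 - eps n) := by
        gcongr
      have h4 : ((1 - eps n)⁻¹) ^ (n + 1) / (1 - eps n) = ((1 - eps n) ^ (n + 2))⁻¹ := by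
        rw [div_eq_mul_inv, ← pow_succ, inv_pow]
      have h5 : ((1 - eps n) ^ (n + 2))⁻¹ ≤ (1 - (n + 2 : ℝ) * eps n)⁻¹ := by
        apply inv_anti₀ (by linarith) hbern
      have h6 : (1 - (n + 2 : ℝ) * eps n)⁻¹ ≤ 1 + 2 * ((n + 2 : ℝ) * eps n) := by
        rw [inv_le_iff_one_le_mul₀ (by linarith)]
        have : 0 ≤ (n + 2 : ℝ) * eps n := by positivity
        nlinarith
      linarith
    have h7 : (0 : ℝ) < 2 ^ (n + 1) := by positivity
    have h8 : 2 * ((n + 2 : ℝ) * eps n) * 2 ^ (n + 1) = 256 * (n + 2) * (4 / 5) ^ (n + 1) := by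
      unfold eps
      have : (4 / 5 : ℝ) ^ (n + 1) = (2 / 5) ^ (n + 1) * 2 ^ (n + 1) := by
        rw [← mul_pow]; norm_num
      rw [this]
      ring
    have h9 : (2 * (1 - 4 / 5) : ℝ) = 2 / 5 := by norm_num
    rw [h9]
    have h10 := mul_le_mul_of_nonneg_right hκ h7.le
    linarith
  · have h := hausdorff_ge (n := n) (a := a) (b := b) (a' := a') (b' := b') (s := 4 / 5)
      (by norm_num) ha0 hb0 ha'0 hb'0
    refine lt_of_lt_of_le ?_ h
    -- `ρ ≤ 17 / 16`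
    have hρ17 : ρ ≤ 17 / 16 := by
      rw [hρ]
      apply Real.sqrt_le_iff.2
      refine ⟨by norm_num, ?_⟩
      rw [inv_le_iff_one_le_mul₀ h1ε]
      nlinarith
    have hb'2 : 4 / 5 * b' ≤ 17 / 20 * b := by nlinarith
    have hβle : β1 ≤ (τ ^ 2 + 2 * (1 - τ) ^ (n + 1)) * V1 := mom_zero_le hτ0 hτ1
    have hbsq : 50 * R ^ 2 ≤ b ^ 2 := by
      rw [hb, Real.sq_sqrt (by positivity), le_div_iff₀ hβ1p]
      calc 50 * R ^ 2 * β1 ≤ 50 * R ^ 2 * ((τ ^ 2 + 2 * (1 - τ) ^ (n + 1)) * V1) := by gcongr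
        _ = ((τ ^ 2 + 2 * (1 - τ) ^ (n + 1)) * (50 * R ^ 2)) * V1 := by ring
        _ ≤ 1 * V1 := by gcongr
        _ = V1 := one_mul _
    have hb7 : 7 * R ≤ b := by
      apply le_of_sq_le_sq _ hb0.le
      nlinarith
    linarith

end Pool.Agent.Lib.MP_9f0ab0_gt
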