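import Pool.Agent.Lib.MP_9f0ab0_gt.Caps
import Pool.Agent.Lib.MP_9f0ab0_gt.Cyl

/-!
# Lower bounds for the moments, and sections of the bodies
-/

open MeasureTheory Metric
open scoped RealInnerProductSpace ENNReal

namespace Pool.Agent.Lib.MP_9f0ab0_gt

variable {n : ℕ}

/-- A coordinate box. -/
def box {d : ℕ} (lo hi : Fin d → ℝ) : Set (E d) := {x | ∀ i, x i ∈ Set.Icc (lo i) (hi i)}

theorem box_eq {d : ℕ} (lo hi : Fin d → ℝ) :
    box lo hi = (WithLp.ofLp : E d → (Fin d → ℝ)) ⁻¹' (Set.Icc lo hi) := by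
  ext x
  simp only [box, Set.mem_ofPred_eq, Set.mem_preimage, Set.mem_Icc, Pi.le_def]
  exact ⟨fun h => ⟨fun i => (h i).1, fun i => (h i).2⟩, fun h i => ⟨h.1 i, h.2 i⟩⟩

theorem box_measurable {d : ℕ} (lo hi : Fin d → ℝ) : MeasurableSet (box lo hi) := by
  rw [box_eq]
  exact (measurableSet_Icc).preimage (PiLp.volume_preserving_ofLp (Fin d)).measurable

theorem volume_box {d : ℕ} (lo hi : Fin d → ℝ) (h : lo ≤ hi) :
    (volume (box lo hi)).toReal = ∏ i, (hi i - lo i) := by
  rw [box_eq, (PiLp.volume_preserving_ofLp (Fin d)).measure_preimage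
    measurableSet_Icc.nullMeasurableSet]
  exact Real.volume_Icc_pi_toReal h

theorem vol_le : vol n 1 ≤ 2 ^ (n + 1) := by
  have hsub : body n 1 1 1 ⊆ box (fun _ : Fin (n + 1) => (-1 : ℝ)) (fun _ => 1) := by
    intro x hx i
    exact abs_le.1 (coord_abs_le le_rfl hx i)
  have hbox := volume_box (fun _ : Fin (n + 1) => (-1 : ℝ)) (fun _ => 1)
    (fun _ => by norm_num)
  have hfin : volume (box (fun _ : Fin (n + 1) => (-1 : ℝ)) (fun _ => 1)) ≠ ⊤ := by
    intro h
    rw [h, ENNReal.toReal_top] at hbox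
    have : (0 : ℝ) < ∏ _i : Fin (n + 1), ((1 : ℝ) - -1) := Finset.prod_pos fun _ _ => by norm_num
    linarith
  have h := ENNReal.toReal_mono hfin (measure_mono hsub)
  rw [hbox] at h
  refine h.trans (le_of_eq ?_)
  rw [Finset.prod_const, Finset.card_univ, Fintype.card_fin]
  norm_num

theorem mom_ge (i : Fin (n + 1)) : 1 / 64 ≤ mom n 1 i := by
  set lo : Fin (n + 1) → ℝ := fun j => if j = i then 1 / 4 else -1 / 2 with hlo
  set hi : Fin (n + 1) → ℝ := fun _ => 1 / 2 with hhi
  have hle : lo ≤ hi := by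
    intro j
    simp only [hlo, hhi]
    split_ifs <;> norm_num
  have hbox := volume_box lo hi hle
  have hprod : ∏ j, (hi j - lo j) = 1 / 4 := by
    have : ∀ j, hi j - lo j = if j = i then (1 / 4 : ℝ) else 1 := by
      intro j
      simp only [hlo, hhi]
      split_ifs <;> norm_num
    simp only [this]
    rw [Finset.prod_ite_eq' Finset.univ i (fun _ => (1 / 4 : ℝ))]
    simp
  rw [hprod] at hbox
  have hfin : volume (box lo hi) ≠ ⊤ := by
    intro h
    rw [h, ENNReal.toReal_top] at hbox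
    norm_num at hbox
  have habs : ∀ x ∈ box lo hi, ∀ j, |x j| ≤ 1 / 2 := by
    intro x hx j
    have := hx j
    simp only [hlo, hhi] at this
    rw [abs_le]
    split_ifs at this
    · exact ⟨by linarith [this.1], this.2⟩
    · exact ⟨by linarith [this.1], this.2⟩
  have hsub : box lo hi ⊆ body n 1 1 1 := by
    intro x hx
    have h := habs x hx
    refine ⟨fun j => ?_, ?_⟩
    · rw [div_one, div_one]
      linarith [h j.succ, h 0]
    · linarith [h 0]
  have h1 : ∫ x in box lo hi, x i * x i ≤ mom n 1 i :=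
    setIntegral_mono_set (integrableOn_sq 1 i)
      (Filter.Eventually.of_forall fun x => mul_self_nonneg (x i))
      (Filter.Eventually.of_forall hsub)
  have h2 : ∫ _x in box lo hi, (1 / 16 : ℝ) ≤ ∫ x in box lo hi, x i * x i := by
    refine setIntegral_mono_on (integrableOn_const hfin) ((integrableOn_sq 1 i).mono_set hsub)
      (box_measurable lo hi) fun x hx => ?_
    have := (hx i).1
    simp only [hlo, if_true] at this
    nlinarith
  rw [setIntegral_const, smul_eq_mul, Measure.real, hbox] at h2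
  linarith

/-! ### Balls inside the bodies and caps -/

theorem ball_subset_capP {a b s : ℝ} (ha : 1 ≤ a) (hb : 1 ≤ b) (hs0 : 0 ≤ s) (hs1 : s < 1) :
    closedBall (EuclideanSpace.single 0 ((1 + s) / 2 * b) : E (n + 1)) ((1 - s) / 4) ⊆
      capP n a b s := by
  intro x hx
  rw [mem_closedBall, dist_eq_norm] at hx
  have h1s : 0 < 1 - s := by linarith
  have ha0 : 0 < a := by linarith
  have hb0 : 0 < b := by linarith
  have h : ∀ i, |(x - EuclideanSpace.single 0 ((1 + s) / 2 * b) : E (n + 1)) i| ≤ (1 - s) / 4 :=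
    fun i => (abs_apply_le_norm _ i).trans hx
  have h0 : |x 0 - (1 + s) / 2 * b| ≤ (1 - s) / 4 := by
    have := h 0
    simpa using this
  have hi : ∀ i : Fin n, |x i.succ| ≤ (1 - s) / 4 := by
    intro i
    have := h i.succ
    simpa using this
  rw [abs_le] at h0
  have hlow : s * b ≤ x 0 := by nlinarith
  have hx0 : 0 ≤ x 0 := le_trans (by positivity) hlow
  have key : ∀ i : Fin n, |x i.succ| / a + |x 0| / b ≤ 1 := by
    intro i
    rw [abs_of_nonneg hx0]
    have e1 : |x i.succ| / a ≤ (1 - s) / 4 :=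
      (div_le_self (abs_nonneg _) ha).trans (hi i)
    have e2 : x 0 / b ≤ (1 + s) / 2 + (1 - s) / 4 := by
      rw [div_le_iff₀ hb0]
      nlinarith
    linarith
  refine ⟨⟨key, ?_⟩, hlow⟩
  rw [abs_of_nonneg hx0]
  nlinarith

theorem ball_subset_capN {a b s : ℝ} (ha : 1 ≤ a) (hb : 1 ≤ b) (hs0 : 0 ≤ s) (hs1 : s < 1) :
    closedBall (EuclideanSpace.single 0 (-((1 + s) / 2 * b)) : E (n + 1)) ((1 - s) / 4) ⊆
      capN n a b s := by
  rw [← flip_capP, ← Set.image_subset_iff, LinearIsometryEquiv.image_closedBall]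
  have : flip (0 : Fin (n + 1)) (EuclideanSpace.single 0 (-((1 + s) / 2 * b))) =
      EuclideanSpace.single 0 ((1 + s) / 2 * b) := by
    ext j
    by_cases h : j = 0
    · subst h
      rw [flip_same]
      simp
    · rw [flip_ne h]
      simp [h]
  rw [this]
  exact ball_subset_capP ha hb hs0 hs1

/-! ### Sections -/

/-- The `(d-1)`-dimensional volume of the central section of `S`. -/
noncomputable def sec {d : ℕ} (S : Set (E d)) (θ : E d) : ℝ≥0∞ :=
  volume {v : ((ℝ ∙ θ)ᗮ : Submodule ℝ (E d)) | (v : E d) ∈ S}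

theorem sec_mono {d : ℕ} {S T : Set (E d)} (h : S ⊆ T) (θ : E d) : sec S θ ≤ sec T θ :=
  measure_mono fun _ hv => h hv

theorem sec_union_le {d : ℕ} (S T : Set (E d)) (θ : E d) : sec (S ∪ T) θ ≤ sec S θ + sec T θ :=
  measure_union_le _ _

theorem sec_body_le {a b : ℝ} (ha : 1 ≤ a) (hb : 1 ≤ b) {θ : E (n + 1)} (hθ : ‖θ‖ = 1) :
    sec (body n a b b) θ ≤ ENNReal.ofReal (2 ^ (n + 1)) * volume (body n a b b) := by
  have ha0 : 0 < a := by linarith
  have hb0 : 0 < b := by linarith
  have h := section_le (body_convex (n := n) (c := b) ha0 hb0)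
    (body_measurable ha0 hb0) (z := 0) (r := 1 / 2) (by norm_num)
    (closedBall_subset_body ha0 hb0 (by
      have e1 : 1 / 2 / a ≤ 1 / 2 := div_le_self (by norm_num) ha
      have e2 : 1 / 2 / b ≤ 1 / 2 := div_le_self (by norm_num) hb
      linarith) (by linarith)) hθ
  refine h.trans (le_of_eq ?_)
  congr 2
  rw [Nat.add_sub_cancel, pow_succ]
  ring

theorem sec_caps_le {a b s : ℝ} (ha : 1 ≤ a) (hb : 1 ≤ b) (hs0 : 0 ≤ s) (hs1 : s < 1)
    {θ : E (n + 1)} (hθ : ‖θ‖ = 1) :
    sec (capP n a b s ∪ capN n a b s) θ ≤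
      ENNReal.ofReal (8 * (2 * (1 - s)) ^ n) * volume (body n a b b) := by
  have ha0 : 0 < a := by linarith
  have hb0 : 0 < b := by linarith
  have h1s : 0 < 1 - s := by linarith
  have hP := section_le (capP_convex (n := n) s ha0 hb0)
    (capP_isCompact s ha0 hb0).measurableSet (by linarith) (ball_subset_capP ha hb hs0 hs1) hθ
  have hN := section_le (capN_convex (n := n) s ha0 hb0)
    (capN_isCompact s ha0 hb0).measurableSet (by linarith) (ball_subset_capN ha hb hs0 hs1) hθ
  have hP' := hP.trans (mul_le_mul_right (volume_capP_le (n := n) ha0 hb0 hs1) _)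
  have hN' := hN.trans (mul_le_mul_right (volume_capN_le (n := n) ha0 hb0 hs1) _)
  refine (sec_union_le _ _ θ).trans ((add_le_add hP' hN').trans (le_of_eq ?_))
  rw [← mul_assoc, ← ENNReal.ofReal_mul (by positivity), ← add_mul,
    ← ENNReal.ofReal_add (by positivity) (by positivity)]
  congr 2
  rw [Nat.add_sub_cancel, pow_succ, mul_pow]
  field_simp
  ring

end Pool.Agent.Lib.MP_9f0ab0_gt
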