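import Pool.Agent.Lib.MP_9f0ab0_gt.Final

/-!
# The disproof, in all large dimensions
-/

open MeasureTheory Metric Filter
open scoped RealInnerProductSpace ENNReal Topology

namespace Pool.Agent.Lib.MP_9f0ab0_gt

theorem eventually_small (t' : ℕ) :
    ∀ᶠ m : ℕ in atTop,
      256 * ((m : ℝ) + 1) * (4 / 5) ^ m + 20 * (2 / 5) ^ m ≤ 1 / (m : ℝ) ^ t' := by
  have h1 : Tendsto (fun m : ℕ => (m : ℝ) ^ (t' + 1) * (4 / 5 : ℝ) ^ m) atTop (𝓝 0) :=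
    tendsto_pow_const_mul_const_pow_of_abs_lt_one _ (by rw [abs_lt]; constructor <;> norm_num)
  have h2 : Tendsto (fun m : ℕ => (m : ℝ) ^ t' * (4 / 5 : ℝ) ^ m) atTop (𝓝 0) :=
    tendsto_pow_const_mul_const_pow_of_abs_lt_one _ (by rw [abs_lt]; constructor <;> norm_num)
  have h3 : Tendsto (fun m : ℕ => (m : ℝ) ^ t' * (2 / 5 : ℝ) ^ m) atTop (𝓝 0) :=
    tendsto_pow_const_mul_const_pow_of_abs_lt_one _ (by rw [abs_lt]; constructor <;> norm_num)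
  have h4 : Tendsto (fun m : ℕ => 256 * ((m : ℝ) ^ (t' + 1) * (4 / 5 : ℝ) ^ m) +
      256 * ((m : ℝ) ^ t' * (4 / 5 : ℝ) ^ m) + 20 * ((m : ℝ) ^ t' * (2 / 5 : ℝ) ^ m)) atTop
      (𝓝 (256 * 0 + 256 * 0 + 20 * 0)) :=
    ((h1.const_mul 256).add (h2.const_mul 256)).add (h3.const_mul 20)
  have h5 : (256 * 0 + 256 * 0 + 20 * 0 : ℝ) < 1 := by norm_num
  filter_upwards [h4.eventually_lt_const h5, eventually_gt_atTop 0] with m hm hm0
  have hm0' : (0 : ℝ) < m := by exact_mod_cast hm0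
  have hp : (0 : ℝ) < (m : ℝ) ^ t' := by positivity
  rw [le_div_iff₀ hp]
  refine le_of_eq_of_le ?_ hm.le
  ring

theorem eventually_eps :
    ∀ᶠ m : ℕ in atTop, ((m : ℝ) + 1) * (128 * (2 / 5) ^ m) ≤ 1 / 2 := by
  have h1 : Tendsto (fun m : ℕ => (m : ℝ) ^ 1 * (2 / 5 : ℝ) ^ m) atTop (𝓝 0) :=
    tendsto_pow_const_mul_const_pow_of_abs_lt_one _ (by rw [abs_lt]; constructor <;> norm_num)
  have h2 : Tendsto (fun m : ℕ => (m : ℝ) ^ 0 * (2 / 5 : ℝ) ^ m) atTop (𝓝 0) :=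
    tendsto_pow_const_mul_const_pow_of_abs_lt_one _ (by rw [abs_lt]; constructor <;> norm_num)
  have h4 : Tendsto (fun m : ℕ => 128 * ((m : ℝ) ^ 1 * (2 / 5 : ℝ) ^ m) +
      128 * ((m : ℝ) ^ 0 * (2 / 5 : ℝ) ^ m)) atTop (𝓝 (128 * 0 + 128 * 0)) :=
    (h1.const_mul 128).add (h2.const_mul 128)
  have h5 : (128 * 0 + 128 * 0 : ℝ) < 1 / 2 := by norm_num
  filter_upwards [h4.eventually_lt_const h5] with m hm
  refine le_of_eq_of_le ?_ hm.le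
  ring

theorem eventually_tau {τ R : ℝ} (h0 : 0 < τ) (h1 : τ < 1) :
    ∀ᶠ m : ℕ in atTop, 2 * (1 - τ) ^ m * (50 * R ^ 2) ≤ 1 / 2 := by
  have h2 : Tendsto (fun m : ℕ => (1 - τ) ^ m) atTop (𝓝 0) :=
    tendsto_pow_atTop_nhds_zero_of_lt_one (by linarith) (by linarith)
  have h3 : Tendsto (fun m : ℕ => 2 * (1 - τ) ^ m * (50 * R ^ 2)) atTop
      (𝓝 (2 * 0 * (50 * R ^ 2))) := (h2.const_mul 2).mul_const _
  have h5 : (2 * 0 * (50 * R ^ 2) : ℝ) < 1 / 2 := by norm_num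
  filter_upwards [h3.eventually_lt_const h5] with m hm
  exact hm.le

theorem main (t' : ℕ) (R : ℝ) : ∃ d₀ : ℕ, 2 ≤ d₀ ∧ ∀ d : ℕ, d₀ ≤ d →
    ∃ P Q : Set (E d), Admissible (d ^ 2) P ∧ Admissible (d ^ 2) Q ∧
      SectionsWithin (1 / (d : ℝ) ^ t') P Q ∧ R < hausdorffDist P Q := by
  set R' := max R 1 with hR'
  have hR1 : 1 ≤ R' := le_max_right _ _
  have hR0 : 0 < R' := by linarith
  set τ := 1 / (10 * R') with hτ
  have hτ0 : 0 < τ := by positivity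
  have hτ1 : τ < 1 := by
    rw [hτ, div_lt_one (by positivity)]
    linarith
  have hτR : τ ^ 2 * (50 * R' ^ 2) = 1 / 2 := by
    rw [hτ]; field_simp; norm_num
  obtain ⟨d₀, hd₀⟩ := eventually_atTop.1 ((eventually_small t').and
    (eventually_eps.and ((eventually_tau (R := R') hτ0 hτ1).and (eventually_ge_atTop 4))))
  refine ⟨max d₀ 2, le_max_right _ _, fun d hd => ?_⟩
  obtain ⟨hC, hB, hD, h4⟩ := hd₀ d ((le_max_left _ _).trans hd)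
  obtain ⟨n, rfl⟩ : ∃ n, d = n + 1 := ⟨d - 1, by omega⟩
  have hn : 3 ≤ n := by omega
  obtain ⟨P, Q, hP, hQ, hPs, hQs, hPi, hQi, hPf, hQf, hsec, hH⟩ :=
    exists_pair (n := n) hn hR0 (δ := 1 / ((n + 1 : ℕ) : ℝ) ^ t') (τ := τ)
      (by
        unfold eps
        refine le_of_eq_of_le ?_ hB
        push_cast; ring)
      (by
        refine le_of_eq_of_le ?_ hC
        push_cast
        rw [pow_succ (2 / 5 : ℝ) n]
        ring)
      hτ0 hτ1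
      (by rw [add_mul, hτR]; linarith)
  have hcard : 4 * n + 2 ≤ (n + 1) ^ 2 := by nlinarith
  have hle : ((4 * n + 2 : ℕ) : ℕ∞) ≤ (((n + 1) ^ 2 : ℕ) : ℕ∞) := by exact_mod_cast hcard
  exact ⟨P, Q, ⟨hP, hPs, hPi, le_trans hPf hle⟩, ⟨hQ, hQs, hQi, le_trans hQf hle⟩, hsec,
    lt_of_le_of_lt (le_max_left _ _) hH⟩

end Pool.Agent.Lib.MP_9f0ab0_gt
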