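import Pool.Agent.Lib.MP_9f0ab0_gt.Body

/-!
# Second moments of the bodies, and diagonal scalings
-/

open MeasureTheory Metric
open scoped RealInnerProductSpace ENNReal

namespace Pool.Agent.Lib.MP_9f0ab0_gt

variable {n : ℕ}

/-! ### Symmetries -/

theorem setIntegral_comp_isometry {d : ℕ} (f : E d ≃ₗᵢ[ℝ] E d) {S : Set (E d)}
    (hS : f ⁻¹' S = S) (g : E d → ℝ) : ∫ x in S, g (f x) = ∫ x in S, g x := by
  have h := f.measurePreserving.setIntegral_preimage_emb
    f.toHomeomorph.measurableEmbedding g S
  rw [hS] at h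
  exact h

/-- The reflection which changes the sign of the coordinate `i`. -/
noncomputable def flip (i : Fin (n + 1)) : E (n + 1) ≃ₗᵢ[ℝ] E (n + 1) :=
  LinearIsometryEquiv.piLpCongrRight 2
    (fun j => if j = i then LinearIsometryEquiv.neg ℝ else LinearIsometryEquiv.refl ℝ ℝ)

theorem flip_same (i : Fin (n + 1)) (x : E (n + 1)) : flip i x i = - x i := by
  unfold flip
  rw [LinearIsometryEquiv.piLpCongrRight_apply]
  simp

theorem flip_ne {i j : Fin (n + 1)} (h : j ≠ i) (x : E (n + 1)) : flip i x j = x j := by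
  unfold flip
  rw [LinearIsometryEquiv.piLpCongrRight_apply]
  simp [h]

theorem abs_flip (i j : Fin (n + 1)) (x : E (n + 1)) : |flip i x j| = |x j| := by
  by_cases h : j = i
  · subst h; rw [flip_same, abs_neg]
  · rw [flip_ne h]

theorem flip_preimage (i : Fin (n + 1)) (a b c : ℝ) :
    flip i ⁻¹' (body n a b c) = body n a b c := by
  ext x
  simp only [body, Set.mem_preimage, Set.mem_ofPred_eq, abs_flip]

theorem integral_coord (a b c : ℝ) (i : Fin (n + 1)) : ∫ x in body n a b c, x i = 0 := by
  have h := setIntegral_comp_isometry (flip i) (flip_preimage i a b c) (fun x => x i)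
  simp only [flip_same, integral_neg] at h
  linarith

theorem integral_coord_mul (a b c : ℝ) {i j : Fin (n + 1)} (hij : i ≠ j) :
    ∫ x in body n a b c, x i * x j = 0 := by
  have h := setIntegral_comp_isometry (flip i) (flip_preimage i a b c) (fun x => x i * x j)
  simp only [flip_same, flip_ne hij.symm, neg_mul, integral_neg] at h
  linarith

/-- The exchange of the coordinates `i` and `j`. -/
noncomputable def swp (i j : Fin (n + 1)) : E (n + 1) ≃ₗᵢ[ℝ] E (n + 1) :=
  LinearIsometryEquiv.piLpCongrLeft 2 ℝ ℝ (Equiv.swap i j)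

theorem swp_apply (i j k : Fin (n + 1)) (x : E (n + 1)) : swp i j x k = x (Equiv.swap i j k) := by
  unfold swp
  rw [LinearIsometryEquiv.piLpCongrLeft_apply]
  simp [Equiv.piCongrLeft']

theorem swp_preimage (i j : Fin n) (a b c : ℝ) :
    swp i.succ j.succ ⁻¹' (body n a b c) = body n a b c := by
  have h0 : Equiv.swap i.succ j.succ (0 : Fin (n + 1)) = 0 :=
    Equiv.swap_apply_of_ne_of_ne (Fin.succ_ne_zero i).symm (Fin.succ_ne_zero j).symm
  have hk : ∀ k : Fin n, Equiv.swap i.succ j.succ k.succ = (Equiv.swap i j k).succ := by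
    intro k
    by_cases h1 : k = i
    · subst h1; simp
    · by_cases h2 : k = j
      · subst h2; simp
      · rw [Equiv.swap_apply_of_ne_of_ne h1 h2, Equiv.swap_apply_of_ne_of_ne]
        · exact fun h => h1 (Fin.succ_injective _ h)
        · exact fun h => h2 (Fin.succ_injective _ h)
  ext x
  simp only [body, Set.mem_preimage, Set.mem_ofPred_eq, swp_apply, h0, hk]
  refine and_congr_left fun _ => ⟨fun h k => ?_, fun h k => h _⟩
  have := h (Equiv.swap i j k)
  rwa [Equiv.swap_apply_self] at this

theorem integral_sq_succ (a b c : ℝ) (i j : Fin n) :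
    ∫ x in body n a b c, x i.succ * x i.succ = ∫ x in body n a b c, x j.succ * x j.succ := by
  have h := setIntegral_comp_isometry (swp i.succ j.succ) (swp_preimage i j a b c)
    (fun x => x j.succ * x j.succ)
  simp only [swp_apply, Equiv.swap_apply_right] at h
  exact h

/-! ### Diagonal scalings -/

/-- The diagonal linear map with nonzero weights `w`. -/
noncomputable def diagE {d : ℕ} (w : Fin d → ℝ) (hw : ∀ i, w i ≠ 0) : E d ≃ₗ[ℝ] E d where
  toFun x := WithLp.toLp 2 (fun i => w i * x i)
  invFun x := WithLp.toLp 2 (fun i => (w i)⁻¹ * x i)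
  map_add' x y := by
    ext i
    simp [mul_add]
  map_smul' c x := by
    ext i
    simp
    ring
  left_inv x := by
    ext i
    simp [hw i]
  right_inv x := by
    ext i
    simp [hw i]

theorem diagE_apply {d : ℕ} (w : Fin d → ℝ) (hw : ∀ i, w i ≠ 0) (x : E d) (i : Fin d) :
    diagE w hw x i = w i * x i := rfl

theorem diagE_symm_apply {d : ℕ} (w : Fin d → ℝ) (hw : ∀ i, w i ≠ 0) (x : E d) (i : Fin d) :
    (diagE w hw).symm x i = (w i)⁻¹ * x i := rfl

theorem det_diagE_ne_zero {d : ℕ} (w : Fin d → ℝ) (hw : ∀ i, w i ≠ 0) :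
    LinearMap.det (diagE w hw : E d →ₗ[ℝ] E d) ≠ 0 :=
  (LinearEquiv.isUnit_det' (diagE w hw)).ne_zero

theorem volume_image_diagE {d : ℕ} (w : Fin d → ℝ) (hw : ∀ i, w i ≠ 0) (S : Set (E d)) :
    (volume (diagE w hw '' S)).toReal =
      |LinearMap.det (diagE w hw : E d →ₗ[ℝ] E d)| * (volume S).toReal := by
  have h := Measure.addHaar_image_linearMap (volume : Measure (E d))
    (diagE w hw : E d →ₗ[ℝ] E d) S
  have h2 : (diagE w hw : E d → E d) '' S = ((diagE w hw : E d →ₗ[ℝ] E d) : E d → E d) '' S := rfl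
  rw [h2, h, ENNReal.toReal_mul, ENNReal.toReal_ofReal (abs_nonneg _)]

theorem integral_image_diagE {d : ℕ} (w : Fin d → ℝ) (hw : ∀ i, w i ≠ 0) {S : Set (E d)}
    (hS : MeasurableSet S) (g : E d → ℝ) :
    ∫ x in diagE w hw '' S, g x =
      |LinearMap.det (diagE w hw : E d →ₗ[ℝ] E d)| * ∫ x in S, g (diagE w hw x) := by
  have h := integral_image_eq_integral_abs_det_fderiv_smul (volume : Measure (E d)) hS
    (f := diagE w hw) (f' := fun _ => LinearMap.toContinuousLinearMap (diagE w hw : E d →ₗ[ℝ] E d))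
    (fun x _ => (LinearMap.toContinuousLinearMap
      (diagE w hw : E d →ₗ[ℝ] E d)).hasFDerivAt.hasFDerivWithinAt)
    ((diagE w hw).injective.injOn) g
  rw [h]
  have hdet : (LinearMap.toContinuousLinearMap (diagE w hw : E d →ₗ[ℝ] E d)).det =
      LinearMap.det (diagE w hw : E d →ₗ[ℝ] E d) := rfl
  simp only [hdet, smul_eq_mul]
  rw [integral_const_mul]

/-- The weights of the scaling: `b` in direction `e_0` and `a` in all other directions. -/
def wts (n : ℕ) (a b : ℝ) : Fin (n + 1) → ℝ := Fin.cons b (fun _ => a)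

theorem wts_zero (a b : ℝ) : wts n a b 0 = b := rfl

theorem wts_succ (a b : ℝ) (i : Fin n) : wts n a b i.succ = a := rfl

theorem wts_ne {a b : ℝ} (ha : 0 < a) (hb : 0 < b) (i : Fin (n + 1)) : wts n a b i ≠ 0 := by
  refine Fin.cases ?_ (fun j => ?_) i
  · exact hb.ne'
  · exact ha.ne'

theorem body_eq_image {a b s : ℝ} (ha : 0 < a) (hb : 0 < b) :
    body n a b (s * b) = diagE (wts n a b) (wts_ne ha hb) '' body n 1 1 s := by
  ext x
  constructor
  · intro hx
    refine ⟨(diagE (wts n a b) (wts_ne ha hb)).symm x, ⟨fun i => ?_, ?_⟩,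
      (diagE (wts n a b) (wts_ne ha hb)).apply_symm_apply x⟩
    · rw [diagE_symm_apply, diagE_symm_apply, wts_zero, wts_succ, abs_mul, abs_mul,
        abs_of_pos (inv_pos.2 ha), abs_of_pos (inv_pos.2 hb)]
      have := hx.1 i
      calc a⁻¹ * |x i.succ| / 1 + b⁻¹ * |x 0| / 1 = |x i.succ| / a + |x 0| / b := by
            rw [div_one, div_one, div_eq_inv_mul, div_eq_inv_mul]
        _ ≤ 1 := this
    · rw [diagE_symm_apply, wts_zero, abs_mul, abs_of_pos (inv_pos.2 hb)]
      have := hx.2
      rw [inv_mul_le_iff₀ hb]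
      linarith
  · rintro ⟨y, hy, rfl⟩
    refine ⟨fun i => ?_, ?_⟩
    · rw [diagE_apply, diagE_apply, wts_zero, wts_succ, abs_mul, abs_mul, abs_of_pos ha,
        abs_of_pos hb, mul_div_cancel_left₀ _ ha.ne', mul_div_cancel_left₀ _ hb.ne']
      have := hy.1 i
      rwa [div_one, div_one] at this
    · rw [diagE_apply, wts_zero, abs_mul, abs_of_pos hb]
      have := hy.2
      nlinarith

/-! ### The normalized bodies -/

/-- The volume of the normalized body. -/
noncomputable def vol (n : ℕ) (s : ℝ) : ℝ := (volume (body n 1 1 s)).toReal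

/-- The second moment of the normalized body in direction `e_i`. -/
noncomputable def mom (n : ℕ) (s : ℝ) (i : Fin (n + 1)) : ℝ := ∫ x in body n 1 1 s, x i * x i

theorem vol_pos {s : ℝ} (hs : 0 < s) : 0 < vol n s := by
  unfold vol
  rw [ENNReal.toReal_pos_iff]
  constructor
  · have h : (interior (body n 1 1 s)).Nonempty := body_interior one_pos one_pos hs
    exact (isOpen_interior.measure_pos volume h).trans_le (measure_mono interior_subset)
  · exact (body_isCompact one_pos one_pos).measure_lt_top

theorem mom_succ (s : ℝ) (i j : Fin n) : mom n s i.succ = mom n s j.succ :=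
  integral_sq_succ 1 1 s i j

/-- The isotropic position. -/
theorem body_isotropic {a b s : ℝ} (ha : 0 < a) (hb : 0 < b) (hs : 0 < s)
    (h1 : ∀ i : Fin n, a ^ 2 * mom n s i.succ = vol n s) (h0 : b ^ 2 * mom n s 0 = vol n s) :
    IsIsotropic (body n a b (s * b)) := by
  constructor
  · intro i
    rw [integral_coord, mul_zero]
  · intro i j
    by_cases hij : i = j
    · subst hij
      rw [if_pos rfl, body_eq_image ha hb, volume_image_diagE,
        integral_image_diagE _ _ (body_measurable one_pos one_pos)]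
      have hdet : |LinearMap.det (diagE (wts n a b) (wts_ne ha hb) : E (n + 1) →ₗ[ℝ] E (n + 1))| ≠ 0
        := abs_ne_zero.2 (det_diagE_ne_zero _ _)
      have hV : (volume (body n 1 1 s)).toReal ≠ 0 := (vol_pos hs).ne'
      have hI : ∫ x in body n 1 1 s, diagE (wts n a b) (wts_ne ha hb) x i *
          diagE (wts n a b) (wts_ne ha hb) x i = (volume (body n 1 1 s)).toReal := by
        simp only [diagE_apply]
        have : ∀ x : E (n + 1), wts n a b i * x i * (wts n a b i * x i) =
            (wts n a b i) ^ 2 * (x i * x i) := fun x => by ring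
        simp only [this]
        rw [integral_const_mul]
        refine Fin.cases ?_ (fun k => ?_) i
        · exact h0
        · exact h1 k
      rw [hI]
      field_simp
    · rw [if_neg hij, integral_coord_mul a b _ hij, mul_zero]

end Pool.Agent.Lib.MP_9f0ab0_gt
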